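import Mathlib

set_option autoImplicit false

/-! Quadratic extension bookkeeping for the line parallelism construction. -/

namespace Pool.Agent.P.MP_3b9ee7_co

open QuadraticAlgebra

variable {F : Type} [Field F]

/-- The quadratic extension `F[w]`, `w ^ 2 = a + w`. -/
abbrev QE (a : F) : Type := QuadraticAlgebra F a 1

theorem exists_irred [Finite F] : ∃ a : F, ∀ r : F, r ^ 2 ≠ a + 1 * r := by
  by_contra h
  push Not at h
  have hs : Function.Surjective (fun r : F => r ^ 2 - r) := by
    intro a
    obtain ⟨r, hr⟩ := h a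
    exact ⟨r, by simp only; rw [hr]; ring⟩
  have hi := Finite.injective_iff_surjective.mpr hs
  have : (0 : F) = 1 := hi (by simp)
  exact zero_ne_one this

variable {a : F}

/-- Representatives of the nonzero elements modulo `F`-scalars. -/
def Rp (a : F) : Option F → QE a
  | none => ⟨1, 0⟩
  | some s => ⟨s, 1⟩

theorem Rp_ne (r : Option F) : Rp a r ≠ 0 := by
  intro h
  cases r with
  | none => have := congrArg QuadraticAlgebra.re h; simp [Rp] at this
  | some s => have := congrArg QuadraticAlgebra.im h; simp [Rp] at this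

theorem exists_rep {e : QE a} (he : e ≠ 0) : ∃ (r : Option F) (c : F), c ≠ 0 ∧ e = c • Rp a r := by
  by_cases h : e.im = 0
  · refine ⟨none, e.re, ?_, ?_⟩
    · intro h0; apply he; ext <;> simp [h, h0]
    · ext <;> simp [Rp, h]
  · refine ⟨some (e.re / e.im), e.im, h, ?_⟩
    ext
    · simp only [Rp, re_smul, smul_eq_mul]; field_simp
    · simp [Rp]

theorem rep_unique {r r' : Option F} {c c' : F} (hc : c ≠ 0)
    (h : c • Rp a r = c' • Rp a r') : r = r' ∧ c = c' := by
  have h1 := congrArg QuadraticAlgebra.re h
  have h2 := congrArg QuadraticAlgebra.im h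
  cases r with
  | none =>
    cases r' with
    | none => simpa [Rp] using h1
    | some s' =>
      simp only [Rp, re_smul, im_smul, smul_eq_mul, mul_one, mul_zero] at h1 h2
      rw [← h2] at h1
      exact absurd (by simpa using h1) hc
  | some s =>
    cases r' with
    | none =>
      simp only [Rp, re_smul, im_smul, smul_eq_mul, mul_one, mul_zero] at h1 h2
      exact absurd h2 hc
    | some s' =>
      simp only [Rp, re_smul, im_smul, smul_eq_mul, mul_one] at h1 h2
      subst h2
      exact ⟨by rw [mul_left_cancel₀ hc h1], rfl⟩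

theorem star_smul' (c : F) (x : QE a) : star (c • x) = c • star x := by
  ext <;> simp <;> ring

theorem smul_eq_alg (c : F) (x : QE a) : c • x = algebraMap F (QE a) c * x :=
  Algebra.smul_def c x

theorem norm_smul' (c : F) (x : QE a) : norm (c • x) = c ^ 2 * norm x := by
  simp only [norm_def, re_smul, im_smul, smul_eq_mul]; ring

theorem mul_star_eq (x : QE a) : x * star x = (norm x : F) • (1 : QE a) := by
  rw [← algebraMap_norm_eq_mul_star, Algebra.algebraMap_eq_smul_one]

/-- The `F`-linear map `x ↦ u x + v x̄`. -/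
def lin (u v : QE a) : QE a →ₗ[F] QE a where
  toFun x := u * x + v * star x
  map_add' x y := by rw [star_add]; ring
  map_smul' c x := by
    rw [star_smul']; simp only [RingHom.id_apply, smul_eq_alg]; ring

@[simp] theorem lin_apply (u v x : QE a) : lin u v x = u * x + v * star x := rfl

/-- the element `w - w̄` -/
def dl (a : F) : QE a := ⟨-1, 2⟩

theorem dl_ne : dl a ≠ 0 := by
  intro h
  have := congrArg QuadraticAlgebra.re h
  simp [dl] at this

theorem sub_star' (z : QE a) : z - star z = z.im • dl a := by
  ext <;> simp [dl] <;> ring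

theorem star_dl : star (dl a) = - dl a := by
  ext <;> simp [dl] <;> ring

variable [Fact (∀ r : F, r ^ 2 ≠ a + 1 * r)]

theorem lin_unique {u v u' v' : QE a}
    (h : ∀ x : QE a, u * x + v * star x = u' * x + v' * star x) : u = u' ∧ v = v' := by
  have h1 := h 1
  have h2 := h ⟨0, 1⟩
  have h3 := sub_star' (⟨0, 1⟩ : QE a)
  simp only [star_one, mul_one, one_smul] at h1 h3
  have h4 : (u - u') * dl a = 0 := by
    rw [← h3]; linear_combination h2 - star (⟨0, 1⟩ : QE a) * h1
  have h5 : u = u' := sub_eq_zero.mp ((mul_eq_zero.mp h4).resolve_right dl_ne)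
  refine ⟨h5, ?_⟩
  rw [h5] at h1
  exact add_left_cancel h1

theorem exists_lin (f : QE a →ₗ[F] QE a) : ∃ u v : QE a, ∀ x, f x = u * x + v * star x := by
  set w : QE a := ⟨0, 1⟩ with hw
  have h3 := sub_star' w
  simp only [hw, one_smul] at h3
  rw [← hw] at h3
  refine ⟨(f w - star w * f 1) / dl a, f 1 - (f w - star w * f 1) / dl a, fun x => ?_⟩
  have hx : x = x.re • (1 : QE a) + x.im • w := by ext <;> simp [hw]
  have hd := dl_ne (a := a)
  have e1 : (f w - star w * f 1) / dl a * w + (f 1 - (f w - star w * f 1) / dl a) * star w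
      = f w := by
    have : (f w - star w * f 1) / dl a * (w - star w) = f w - star w * f 1 := by
      rw [h3]; field_simp
    linear_combination this
  conv_lhs => rw [hx]
  conv_rhs => rw [hx]
  rw [map_add, map_smul, map_smul, star_add, star_smul', star_smul', star_one]
  simp only [smul_eq_alg]
  linear_combination (-(algebraMap F (QE a) x.im)) * e1

theorem norm_ne {x : QE a} (hx : x ≠ 0) : (norm x : F) ≠ 0 :=
  fun h => hx (norm_eq_zero_iff_eq_zero.mp h)

theorem star_ne {x : QE a} (hx : x ≠ 0) : star x ≠ 0 := by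
  intro h; apply hx; rw [← star_star x, h, star_zero]

theorem lin_inj {u v : QE a} (h : (norm u : F) ≠ norm v) {x : QE a}
    (hx : u * x + v * star x = 0) : x = 0 := by
  by_contra h0
  have h1 : u * x = -(v * star x) := eq_neg_of_add_eq_zero_left hx
  have h2 := congrArg (fun z : QE a => (norm z : F)) h1
  simp only [map_mul, QuadraticAlgebra.norm_neg, QuadraticAlgebra.norm_star] at h2
  exact h (mul_right_cancel₀ (norm_ne h0) h2)

instance instFintypeQE [Fintype F] : Fintype (QE a) :=
  Fintype.ofEquiv (F × F) (QuadraticAlgebra.equivProd a 1).symm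

omit [Fact (∀ r : F, r ^ 2 ≠ a + 1 * r)] in
theorem card_QE [Fintype F] : Fintype.card (QE a) = Fintype.card F ^ 2 := by
  rw [Fintype.card_congr (QuadraticAlgebra.equivProd a 1), Fintype.card_prod, sq]

open Classical in
theorem norm_fibre_le [Fintype F] (n : F) (hn : n ≠ 0) :
    (Finset.univ.filter fun x : QE a => norm x = n).card ≤ Fintype.card F + 1 := by
  by_cases hex : ∃ x0 : QE a, norm x0 = n
  · obtain ⟨x0, hx0⟩ := hex
    have hx00 : x0 ≠ 0 := by rintro rfl; exact hn (by simpa using hx0.symm)
    have : (Finset.univ.filter fun x : QE a => norm x = n) ⊆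
        Finset.univ.image (fun r : Option F => x0 * (Rp a r / star (Rp a r))) := by
      intro x hx
      simp only [Finset.mem_filter, Finset.mem_univ, true_and] at hx
      have hu : (x / x0) * star (x / x0) = 1 := by
        rw [mul_star_eq]
        have : (norm (x / x0) : F) * norm x0 = norm x0 := by
          rw [← map_mul, div_mul_cancel₀ _ hx00, hx, hx0]
        have h2 : (norm (x / x0) : F) = 1 := by
          have := mul_right_cancel₀ (norm_ne hx00) (this.trans (one_mul _).symm)
          exact this
        rw [h2, one_smul]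
      set u := x / x0 with hudef
      have hxu : x = x0 * u := by rw [hudef]; field_simp
      have key : ∃ z : QE a, z ≠ 0 ∧ z = u * star z := by
        by_cases h1 : 1 + u = 0
        · refine ⟨dl a, dl_ne, ?_⟩
          have : u = -1 := by linear_combination h1
          rw [this, star_dl]; ring
        · refine ⟨1 + u, h1, ?_⟩
          rw [star_add, star_one]; linear_combination -hu
      obtain ⟨z, hz0, hz⟩ := key
      obtain ⟨r, c, hc, rfl⟩ := exists_rep hz0
      simp only [Finset.mem_image, Finset.mem_univ, true_and]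
      refine ⟨r, ?_⟩
      rw [hxu]
      congr 1
      rw [star_smul', smul_eq_alg, smul_eq_alg] at hz
      have hc' : algebraMap F (QE a) c ≠ 0 := by simpa using hc
      have hs := star_ne (Rp_ne (a := a) r)
      field_simp
      apply mul_left_cancel₀ hc'
      linear_combination hz
    refine (Finset.card_le_card this).trans (Finset.card_image_le.trans ?_)
    simp
  · push Not at hex
    rw [Finset.filter_eq_empty_iff.mpr (fun x _ => hex x)]
    simp

open Classical in
theorem norm_fibre_zero [Fintype F] :
    (Finset.univ.filter fun x : QE a => norm x = 0).card = 1 := by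
  rw [Finset.card_eq_one]
  refine ⟨0, ?_⟩
  ext x
  simp [norm_eq_zero_iff_eq_zero]

open Classical in
theorem norm_fibre [Fintype F] (n : F) (hn : n ≠ 0) :
    (Finset.univ.filter fun x : QE a => norm x = n).card = Fintype.card F + 1 := by
  have hsum := Finset.card_eq_sum_card_fiberwise (f := fun x : QE a => (norm x : F))
    (s := Finset.univ) (t := Finset.univ) (fun x _ => Finset.mem_coe.mpr (Finset.mem_univ _))
  rw [Finset.card_univ, card_QE, ← Finset.add_sum_erase _ _ (Finset.mem_univ (0 : F)),
    norm_fibre_zero] at hsum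
  by_contra hne
  have hlt : ∑ m ∈ Finset.univ.erase (0 : F), (Finset.univ.filter fun x : QE a => norm x = m).card
      < ∑ _m ∈ Finset.univ.erase (0 : F), (Fintype.card F + 1) := by
    apply Finset.sum_lt_sum
    · intro m hm
      exact norm_fibre_le m (Finset.ne_of_mem_erase hm)
    · exact ⟨n, Finset.mem_erase.mpr ⟨hn, Finset.mem_univ _⟩,
        lt_of_le_of_ne (norm_fibre_le n hn) hne⟩
  rw [Finset.sum_const, Finset.card_erase_of_mem (Finset.mem_univ _), Finset.card_univ,
    smul_eq_mul] at hlt
  have hq : 1 ≤ Fintype.card F := Fintype.card_pos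
  obtain ⟨k, hk⟩ := Nat.exists_eq_add_of_le hq
  rw [hk] at hlt hsum
  simp only [Nat.add_sub_cancel_left] at hlt
  nlinarith

theorem norm_surj [Fintype F] (n : F) (hn : n ≠ 0) : ∃ x : QE a, norm x = n := by
  have h := norm_fibre (a := a) n hn
  obtain ⟨x, hx⟩ := Finset.card_pos.mp (lt_of_lt_of_eq (Nat.succ_pos _) h.symm)
  exact ⟨x, by simpa using hx⟩

/-- Parameters of the parallelism of the three-dimensional space. -/
theorem exists_params [Fintype F] : ∃ a1 b1 b0 : QE a,
    (∀ t : F, (norm (a1 + t • (1 : QE a)) : F) ≠ norm b1) ∧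
    (∀ u : F, u ≠ 0 → b0 + u • b1 ≠ 0) ∧
    (∀ e : QE a, e ≠ 0 → ∃ r : Option F, ∃ u : F, u ≠ 0 ∧ e = Rp a r * (b0 + u • b1)) ∧
    (∀ (r r' : Option F) (u u' : F), u ≠ 0 → u' ≠ 0 →
      Rp a r * (b0 + u • b1) = Rp a r' * (b0 + u' • b1) → r = r' ∧ u = u') := by
  classical
  have main : ∀ (a1 : QE a) (n : F), n ≠ 0 → (∀ t : F, (norm (a1 + t • (1 : QE a)) : F) ≠ n) →
      ∃ a1 b1 b0 : QE a,
      (∀ t : F, (norm (a1 + t • (1 : QE a)) : F) ≠ norm b1) ∧
      (∀ u : F, u ≠ 0 → b0 + u • b1 ≠ 0) ∧
      (∀ e : QE a, e ≠ 0 → ∃ r : Option F, ∃ u : F, u ≠ 0 ∧ e = Rp a r * (b0 + u • b1)) ∧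
      (∀ (r r' : Option F) (u u' : F), u ≠ 0 → u' ≠ 0 →
        Rp a r * (b0 + u • b1) = Rp a r' * (b0 + u' • b1) → r = r' ∧ u = u') := by
    intro a1 n hn h
    obtain ⟨b1, hb1⟩ := norm_surj (a := a) n hn
    have hb0 : b1 ≠ 0 := by rintro rfl; exact hn (by simpa using hb1.symm)
    refine ⟨a1, b1, 0, by rw [hb1]; exact h, fun u hu => by simp [hu, hb0], fun e he => ?_, ?_⟩
    · obtain ⟨r, c, hc, hr⟩ := exists_rep (div_ne_zero he hb0)
      refine ⟨r, c, hc, ?_⟩
      rw [div_eq_iff hb0] at hr
      rw [hr]; simp only [smul_eq_alg]; ring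
    · intro r r' u u' hu _ h2
      have : u • Rp a r = u' • Rp a r' := by
        apply mul_right_cancel₀ hb0
        simp only [smul_eq_alg] at h2 ⊢
        linear_combination h2
      exact rep_unique hu this
  by_cases h2 : ∀ u : F, u ≠ 0 → u = 1
  · refine ⟨⟨0, 1⟩, 0, 1, fun t => ?_, fun u _ => by simp, fun e he => ?_, ?_⟩
    · rw [QuadraticAlgebra.norm_zero]
      apply norm_ne
      intro h0
      have := congrArg QuadraticAlgebra.im h0
      simp at this
    · obtain ⟨r, c, hc, hr⟩ := exists_rep he
      exact ⟨r, 1, one_ne_zero, by rw [hr, h2 c hc]; simp⟩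
    · intro r r' u u' hu hu' h3
      rw [h2 u hu, h2 u' hu']
      have : (1 : F) • Rp a r = (1 : F) • Rp a r' := by simpa using h3
      exact rep_unique one_ne_zero this
  · push Not at h2
    obtain ⟨u, hu0, hu1⟩ := h2
    by_cases hc : ringChar F = 2
    · have h20 : (2 : F) = 0 := by
        have := (ringChar.spec F 2).mpr (by rw [hc])
        simpa using this
      by_cases hex : ∃ n : F, n ≠ 0 ∧ ∀ t : F, t ^ 2 + t - a ≠ n
      · obtain ⟨n, hn, hn2⟩ := hex
        refine main ⟨0, 1⟩ n hn (fun t => ?_)
        convert hn2 t using 1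
        simp [norm_def]; ring
      · exfalso
        push Not at hex
        have hsub : Finset.univ.erase (0 : F) ⊆
            ((Finset.univ.erase (0 : F)).erase u).image (fun t : F => t ^ 2 + t - a) := by
          intro n hn
          obtain ⟨t, ht⟩ := hex n (Finset.ne_of_mem_erase hn)
          simp only [Finset.mem_image, Finset.mem_erase, Finset.mem_univ, and_true]
          by_cases ht0 : t = 0
          · refine ⟨1, ⟨hu1.symm, one_ne_zero⟩, ?_⟩
            rw [← ht, ht0]; linear_combination h20
          · by_cases htu : t = u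
            · refine ⟨u + 1, ⟨by simp, ?_⟩, ?_⟩
              · intro h; apply hu1; linear_combination h - h20
              · rw [← ht, htu]; linear_combination (u + 1) * h20
            · exact ⟨t, ⟨htu, ht0⟩, ht⟩
        have h3 := (Finset.card_le_card hsub).trans Finset.card_image_le
        have hu : u ∈ Finset.univ.erase (0 : F) := Finset.mem_erase.mpr ⟨hu0, Finset.mem_univ _⟩
        exact absurd h3 (not_le.mpr (Finset.card_erase_lt_of_mem hu))
    · obtain ⟨n, hn⟩ := FiniteField.exists_nonsquare hc
      have hn0 : n ≠ 0 := by rintro rfl; exact hn ⟨0, by simp⟩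
      refine main 0 n hn0 (fun t ht => hn ⟨t, ?_⟩)
      rw [← ht]; simp [norm_def]

end Pool.Agent.P.MP_3b9ee7_co
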