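import Pool.Agent.P.MP_3b9ee7_co.Graph

set_option autoImplicit false
set_option linter.unusedSectionVars false

/-! A line parallelism of the three-dimensional projective space. -/

namespace Pool.Agent.P.MP_3b9ee7_co

open QuadraticAlgebra Module

variable {F : Type} [Field F]

theorem finrank_pair {V : Type} [AddCommGroup V] [Module F V] {p p' : V}
    (h : ∀ c d : F, c • p + d • p' = 0 → c = 0 ∧ d = 0) :
    finrank F (Submodule.span F ({p, p'} : Set V)) = 2 := by
  have hli : LinearIndependent F ![p, p'] := LinearIndependent.pair_iff.mpr h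
  have := finrank_span_eq_card hli
  rw [Matrix.range_cons, Matrix.range_cons, Matrix.range_empty, Set.union_empty,
    Set.singleton_union] at this
  simpa using this

theorem finrank_map_of_inj {V V' : Type} [AddCommGroup V] [Module F V] [AddCommGroup V']
    [Module F V'] (f : V →ₗ[F] V') (X : Submodule F V) (h : ∀ z ∈ X, f z = 0 → z = 0) :
    finrank F (X.map f) = finrank F X := by
  have hinj : Function.Injective (f ∘ₗ X.subtype) := by
    rw [← LinearMap.ker_eq_bot, LinearMap.ker_eq_bot']
    intro z hz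
    exact Subtype.ext (h z.1 z.2 hz)
  rw [← LinearMap.finrank_range_of_inj hinj, LinearMap.range_comp, Submodule.range_subtype]

variable {a : F}

/-- The distinguished line. -/
def MM (a : F) (W : Type) [AddCommGroup W] [Module F W] : Submodule F (QE a × W) :=
  LinearMap.range (LinearMap.inl F (QE a) W)

theorem mem_MM {W : Type} [AddCommGroup W] [Module F W] {z : QE a × W} :
    z ∈ MM a W ↔ z.2 = 0 := by
  rw [MM, LinearMap.range_inl]; simp

theorem finrank_MM {W : Type} [AddCommGroup W] [Module F W] : finrank F (MM a W) = 2 :=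
  finrank_range_inj LinearMap.inl_injective

/-- the generator `w` -/
def om (a : F) : QE a := ⟨0, 1⟩

/-- Lines of class `(r, s)` that meet the distinguished line. -/
def L1 (b0 : QE a) (r : Option F) (s : F) (x : QE a) : Submodule F (QE a × QE a) :=
  Submodule.span F {(Rp a r * x, 0), (Rp a r * (s • om a * x + b0 * star x), x)}

theorem mem_L1 {b0 : QE a} {r : Option F} {s : F} {x : QE a} {z : QE a × QE a} :
    z ∈ L1 b0 r s x ↔ ∃ c d : F,
      z = (Rp a r * (c • x + d • (s • om a * x + b0 * star x)), d • x) := by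
  rw [L1, Submodule.mem_span_pair]
  constructor
  · rintro ⟨c, d, h⟩
    refine ⟨c, d, h ▸ Prod.ext ?_ ?_⟩
    · simp only [Prod.fst_add, Prod.smul_fst, smul_eq_alg]; ring
    · simp
  · rintro ⟨c, d, h⟩
    refine ⟨c, d, h ▸ Prod.ext ?_ ?_⟩
    · simp only [Prod.fst_add, Prod.smul_fst, smul_eq_alg]; ring
    · simp

variable [Fact (∀ r : F, r ^ 2 ≠ a + 1 * r)]

theorem alg_ne {c : F} (hc : c ≠ 0) : algebraMap F (QE a) c ≠ 0 := by simpa using hc

theorem finrank_L1 (b0 : QE a) (r : Option F) (s : F) {x : QE a} (hx : x ≠ 0) :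
    finrank F (L1 b0 r s x) = 2 := by
  apply finrank_pair
  intro c d h
  have h2 := congrArg Prod.snd h
  have hd : d = 0 := by simpa [hx] using h2
  subst hd
  have h1 := congrArg Prod.fst h
  simpa [hx, Rp_ne] using h1

theorem L1_smul (b0 : QE a) (r : Option F) (s : F) {x : QE a} (hx : x ≠ 0) {c : F} (hc : c ≠ 0) :
    L1 b0 r s (c • x) = L1 b0 r s x := by
  refine eq_of_le_two ?_ (finrank_L1 _ _ _ (smul_ne_zero hc hx)) (finrank_L1 _ _ _ hx)
  intro z hz
  obtain ⟨e, d, rfl⟩ := mem_L1.mp hz
  refine mem_L1.mpr ⟨e * c, d * c, Prod.ext ?_ ?_⟩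
  · rw [star_smul']; simp only [smul_eq_alg, map_mul]; ring
  · simp only [mul_smul]

theorem pair_indep {a1 b1 : QE a} (h1 : ∀ t : F, (norm (a1 + t • (1 : QE a)) : F) ≠ norm b1)
    {x : QE a} (hx : x ≠ 0) {t u : F} (h : t • x + u • (a1 * x + b1 * star x) = 0) :
    t = 0 ∧ u = 0 := by
  by_cases hu : u = 0
  · subst hu
    simpa [hx] using h
  · exfalso
    apply hx
    apply lin_inj (h1 (t / u))
    apply mul_left_cancel₀ (alg_ne (a := a) hu)
    have e : algebraMap F (QE a) u * algebraMap F (QE a) (t / u) = algebraMap F (QE a) t := by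
      rw [← map_mul]; congr 1; field_simp
    simp only [smul_eq_alg] at h ⊢
    linear_combination h + x * e

theorem pair_span {a1 b1 : QE a} (h1 : ∀ t : F, (norm (a1 + t • (1 : QE a)) : F) ≠ norm b1)
    {x : QE a} (hx : x ≠ 0) (y : QE a) :
    ∃ t u : F, y = t • x + u • (a1 * x + b1 * star x) := by
  have h2 : Submodule.span F ({x, a1 * x + b1 * star x} : Set (QE a)) = ⊤ :=
    Submodule.eq_top_of_finrank_eq
      ((finrank_pair fun c d h => pair_indep h1 hx h).trans finrank_QE.symm)
  have : y ∈ Submodule.span F ({x, a1 * x + b1 * star x} : Set (QE a)) := h2 ▸ Submodule.mem_top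
  obtain ⟨t, u, h⟩ := Submodule.mem_span_pair.mp this
  exact ⟨t, u, h.symm⟩

/-- The parallel classes of the three-dimensional space. -/
def BB (a1 b1 b0 : QE a) : Option (Option F × F) → Set (Submodule F (QE a × QE a))
  | none => {X | X = MM a (QE a) ∨ ∃ u, X = G LinearMap.id u 0}
  | some (r, s) => {X | (∃ x, x ≠ 0 ∧ X = L1 b0 r s x) ∨ ∃ u t : F, u ≠ 0 ∧
      X = G LinearMap.id (Rp a r * (s • om a + u • a1 + t • (1 : QE a))) (Rp a r * (b0 + u • b1))}

theorem mem_Gid {u v : QE a} {z : QE a × QE a} :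
    z ∈ G LinearMap.id u v ↔ z.1 = u * z.2 + v * star z.2 := by
  rw [mem_G]
  constructor
  · rintro ⟨x, rfl⟩; rfl
  · intro h; exact ⟨z.2, Prod.ext h rfl⟩

theorem BB_dim (a1 b1 b0 : QE a) (c : Option (Option F × F)) (X : Submodule F (QE a × QE a))
    (hX : X ∈ BB a1 b1 b0 c) : finrank F X = 2 := by
  rcases c with _ | ⟨r, s⟩
  · rcases hX with rfl | ⟨u, rfl⟩
    · exact finrank_MM
    · exact finrank_G (fun _ _ h => h) _ _
  · rcases hX with ⟨x, hx, rfl⟩ | ⟨u, t, _, rfl⟩
    · exact finrank_L1 _ _ _ hx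
    · exact finrank_G (fun _ _ h => h) _ _

theorem BB_cover {a1 b1 b0 : QE a} (h1 : ∀ t : F, (norm (a1 + t • (1 : QE a)) : F) ≠ norm b1)
    (c : Option (Option F × F)) (z : QE a × QE a) (hz : z ≠ 0) :
    ∃! X, X ∈ BB a1 b1 b0 c ∧ z ∈ X := by
  obtain ⟨y, x⟩ := z
  by_cases hx : x = 0
  · subst hx
    have hy : y ≠ 0 := by rintro rfl; exact hz rfl
    rcases c with _ | ⟨r, s⟩
    · refine ⟨MM a (QE a), ⟨Or.inl rfl, mem_MM.mpr rfl⟩, ?_⟩
      rintro X ⟨rfl | ⟨u, rfl⟩, hX⟩
      · rfl
      · exact absurd (by simpa using mem_Gid.mp hX) hy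
    · have hR := Rp_ne (a := a) r
      refine ⟨L1 b0 r s (y / Rp a r), ⟨Or.inl ⟨_, div_ne_zero hy hR, rfl⟩,
        mem_L1.mpr ⟨1, 0, Prod.ext ?_ (by simp)⟩⟩, ?_⟩
      · simp only [one_smul, zero_smul, add_zero]; field_simp
      · rintro X ⟨⟨x, hx, rfl⟩ | ⟨u, t, _, rfl⟩, hX⟩
        · obtain ⟨c, d, h⟩ := mem_L1.mp hX
          have hd : d = 0 := by simpa [hx] using (congrArg Prod.snd h).symm
          subst hd
          have h2 : y = Rp a r * (c • x) := by simpa using congrArg Prod.fst h
          have hc : c ≠ 0 := by rintro rfl; exact hy (by simpa using h2)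
          rw [← L1_smul b0 r s hx hc, h2]
          congr 1
          field_simp
        · exact absurd (by simpa using mem_Gid.mp hX) hy
  · rcases c with _ | ⟨r, s⟩
    · refine ⟨G LinearMap.id (y / x) 0, ⟨Or.inr ⟨_, rfl⟩, mem_Gid.mpr ?_⟩, ?_⟩
      · simp only [zero_mul, add_zero]; field_simp
      · rintro X ⟨rfl | ⟨u, rfl⟩, hX⟩
        · exact absurd (mem_MM.mp hX) hx
        · have := mem_Gid.mp hX
          simp only [zero_mul, add_zero] at this
          rw [this]; congr 1; field_simp
    · have hR := Rp_ne (a := a) r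
      obtain ⟨t, u, htu⟩ := pair_span h1 hx (y / Rp a r - (s • om a * x + b0 * star x))
      have hy : y = Rp a r * (s • om a * x + b0 * star x + t • x + u • (a1 * x + b1 * star x)) := by
        rw [add_assoc, ← htu]; field_simp; ring
      have key : ∀ X, X ∈ BB a1 b1 b0 (some (r, s)) → (y, x) ∈ X →
          (u = 0 ∧ X = L1 b0 r s x) ∨ (u ≠ 0 ∧ X = G LinearMap.id
            (Rp a r * (s • om a + u • a1 + t • (1 : QE a))) (Rp a r * (b0 + u • b1))) := by
        rintro X (⟨x', hx', rfl⟩ | ⟨u', t', hu', rfl⟩) hX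
        · left
          obtain ⟨c, d, h⟩ := mem_L1.mp hX
          have e2 : x = d • x' := congrArg Prod.snd h
          have e1 : y = Rp a r * (c • x' + d • (s • om a * x' + b0 * star x')) :=
            congrArg Prod.fst h
          have hd : d ≠ 0 := by rintro rfl; exact hx (by simpa using e2)
          refine ⟨?_, by rw [e2, L1_smul b0 r s hx' hd]⟩
          have e3 := mul_left_cancel₀ hR (hy.symm.trans e1)
          rw [e2, star_smul'] at e3
          have : (t * d - c) • x' + (u * d) • (a1 * x' + b1 * star x') = 0 := by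
            simp only [smul_eq_alg, map_mul, map_sub] at e3 ⊢
            linear_combination e3
          exact (mul_eq_zero.mp (pair_indep h1 hx' this).2).resolve_right hd
        · right
          have e1 := mem_Gid.mp hX
          simp only at e1
          have : (t - t') • x + (u - u') • (a1 * x + b1 * star x) = 0 := by
            apply mul_left_cancel₀ hR
            rw [hy] at e1
            simp only [smul_eq_alg, map_sub] at e1 ⊢
            linear_combination e1
          obtain ⟨e2, e3⟩ := pair_indep h1 hx this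
          rw [sub_eq_zero.mp e2, sub_eq_zero.mp e3]
          exact ⟨hu', rfl⟩
      by_cases hu : u = 0
      · refine ⟨L1 b0 r s x, ⟨Or.inl ⟨x, hx, rfl⟩, mem_L1.mpr ⟨t, 1, Prod.ext ?_ (by simp)⟩⟩, ?_⟩
        · simp only [hy, hu, zero_smul, add_zero, one_smul]; ring
        · rintro X ⟨hX, hX2⟩
          rcases key X hX hX2 with h | h
          · exact h.2
          · exact absurd hu h.1
      · refine ⟨_, ⟨Or.inr ⟨u, t, hu, rfl⟩, mem_Gid.mpr ?_⟩, ?_⟩
        · simp only [hy, smul_eq_alg]; ring
        · rintro X ⟨hX, hX2⟩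
          rcases key X hX hX2 with h | h
          · exact absurd h.1 hu
          · exact h.2

theorem decomp (e : QE a) : e = e.im • om a + e.re • (1 : QE a) := by
  ext <;> simp [om]

theorem BB_part {a1 b1 b0 : QE a} (h2 : ∀ u : F, u ≠ 0 → b0 + u • b1 ≠ 0)
    (h3 : ∀ e : QE a, e ≠ 0 → ∃ r : Option F, ∃ u : F, u ≠ 0 ∧ e = Rp a r * (b0 + u • b1))
    (h4 : ∀ (r r' : Option F) (u u' : F), u ≠ 0 → u' ≠ 0 →
      Rp a r * (b0 + u • b1) = Rp a r' * (b0 + u' • b1) → r = r' ∧ u = u')
    (X : Submodule F (QE a × QE a)) (hX : finrank F X = 2) : ∃! c, X ∈ BB a1 b1 b0 c := by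
  have hid : Function.Injective (LinearMap.id : QE a →ₗ[F] QE a) := fun _ _ h => h
  by_cases hA : ∀ z ∈ X, LinearMap.snd F (QE a) (QE a) z = 0 → z = 0
  · have hm : X.map (LinearMap.snd F (QE a) (QE a)) = ⊤ :=
      Submodule.eq_top_of_finrank_eq (by rw [finrank_map_of_inj _ _ hA, hX, finrank_QE])
    obtain ⟨p, v, rfl⟩ := exists_G hid hX (by rw [hm]; exact le_top)
    have nM : G LinearMap.id p v ≠ MM a (QE a) := by
      intro h
      have : ((1 : QE a), (0 : QE a)) ∈ G LinearMap.id p v := h ▸ mem_MM.mpr rfl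
      simpa using hA _ this rfl
    have nL : ∀ r s x, x ≠ 0 → G LinearMap.id p v ≠ L1 b0 r s x := by
      intro r s x hx h
      have : (Rp a r * x, (0 : QE a)) ∈ G LinearMap.id p v :=
        h ▸ mem_L1.mpr ⟨1, 0, by simp⟩
      have := hA _ this rfl
      simp [hx, Rp_ne] at this
    by_cases hv : v = 0
    · subst hv
      refine ⟨none, Or.inr ⟨p, rfl⟩, ?_⟩
      rintro (_ | ⟨r, s⟩) hc
      · rfl
      · rcases hc with ⟨x, hx, h⟩ | ⟨u, t, hu, h⟩
        · exact absurd h (nL r s x hx)
        · exact absurd (G_inj hid h).2.symm (mul_ne_zero (Rp_ne r) (h2 u hu))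
    · obtain ⟨r, u, hu, hv2⟩ := h3 v hv
      have hR := Rp_ne (a := a) r
      set e := p / Rp a r - u • a1 with he
      have hp : p = Rp a r * (e.im • om a + u • a1 + e.re • (1 : QE a)) := by
        rw [add_right_comm, ← decomp e, he]; field_simp; ring
      refine ⟨some (r, e.im), Or.inr ⟨u, e.re, hu, by rw [← hp, ← hv2]⟩, ?_⟩
      rintro (_ | ⟨r', s'⟩) hc
      · rcases hc with h | ⟨u', h⟩
        · exact absurd h nM
        · exact absurd (G_inj hid h).2 hv
      · rcases hc with ⟨x, hx, h⟩ | ⟨u', t', hu', h⟩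
        · exact absurd h (nL r' s' x hx)
        · obtain ⟨e1, e2⟩ := G_inj hid h
          obtain ⟨rfl, rfl⟩ := h4 r r' u u' hu hu' (hv2.symm.trans e2)
          have e3 := mul_left_cancel₀ hR (hp.symm.trans e1)
          have e4 := congrArg QuadraticAlgebra.im e3
          simp [om] at e4
          rw [e4]
  · push Not at hA
    obtain ⟨⟨be, z0⟩, hb, hz0, hb0⟩ := hA
    simp only [LinearMap.snd_apply] at hz0
    subst hz0
    have hbe : be ≠ 0 := by rintro rfl; exact hb0 rfl
    have nG : ∀ p v, X ≠ G LinearMap.id p v := by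
      rintro p v rfl
      exact hbe (by simpa using mem_Gid.mp hb)
    by_cases hM : ∀ z ∈ X, z.2 = 0
    · have hXM : X = MM a (QE a) := eq_of_le_two (fun z hz => mem_MM.mpr (hM z hz)) hX finrank_MM
      refine ⟨none, Or.inl hXM, ?_⟩
      rintro (_ | ⟨r, s⟩) hc
      · rfl
      · rcases hc with ⟨x, hx, h⟩ | ⟨u, t, hu, h⟩
        · exfalso
          have := hM _ (h ▸ (mem_L1 (b0 := b0) (r := r) (s := s) (x := x)).mpr ⟨0, 1, rfl⟩)
          exact hx (by simpa using this)
        · exact absurd h (nG _ _)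
    · push Not at hM
      obtain ⟨⟨de, x⟩, hd, hx⟩ := hM
      simp only at hx
      obtain ⟨r, c, hc, hr⟩ := exists_rep (div_ne_zero hbe hx)
      have hR := Rp_ne (a := a) r
      have hbe2 : be = Rp a r * (c • x) := by
        rw [div_eq_iff hx] at hr
        rw [hr]; simp only [smul_eq_alg]; ring
      set e := (de / Rp a r - b0 * star x) / x with he
      have hde : de = Rp a r * (e.re • x + (e.im • om a * x + b0 * star x)) := by
        have : e.re • x + e.im • om a * x = e * x := by
          conv_rhs => rw [decomp e]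
          simp only [smul_eq_alg]; ring
        rw [← add_assoc, this, he]; field_simp; ring
      have hspan : Submodule.span F {(be, (0 : QE a)), (de, x)} = X := by
        refine eq_of_le_two ?_ (finrank_pair ?_) hX
        · rw [Submodule.span_le]
          rintro z (rfl | rfl)
          · exact hb
          · exact hd
        · intro c' d' h
          have hd' : d' = 0 := by simpa [hx] using congrArg Prod.snd h
          subst hd'
          simpa [hbe] using congrArg Prod.fst h
      have hXL : X = L1 b0 r e.im x := by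
        refine eq_of_le_two ?_ hX (finrank_L1 _ _ _ hx)
        rw [← hspan, Submodule.span_le]
        rintro z (rfl | rfl)
        · exact mem_L1.mpr ⟨c, 0, by simp [← hbe2]⟩
        · exact mem_L1.mpr ⟨e.re, 1, by simp only [one_smul, ← hde]⟩
      refine ⟨some (r, e.im), Or.inl ⟨x, hx, hXL⟩, ?_⟩
      rintro (_ | ⟨r', s'⟩) hc'
      · rcases hc' with h | ⟨u', h⟩
        · exact absurd (mem_MM.mp (h ▸ hd)) hx
        · exact absurd h (nG _ _)
      · rcases hc' with ⟨x', hx', h⟩ | ⟨u', t', hu', h⟩
        · have m1 := (mem_L1 (b0 := b0) (r := r') (s := s') (x := x')).mpr ⟨1, 0, rfl⟩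
          have m2 := (mem_L1 (b0 := b0) (r := r') (s := s') (x := x')).mpr ⟨0, 1, rfl⟩
          rw [← h, hXL] at m1 m2
          obtain ⟨c1, d1, e1⟩ := mem_L1.mp m1
          obtain ⟨c2, d2, e2⟩ := mem_L1.mp m2
          have hd1 : d1 = 0 := by simpa [hx] using (congrArg Prod.snd e1).symm
          subst hd1
          have f2 : x' = d2 • x := by simpa using congrArg Prod.snd e2
          have hd2 : d2 ≠ 0 := by rintro rfl; exact hx' (by simpa using f2)
          have f1 := congrArg Prod.fst e1
          have f3 := congrArg Prod.fst e2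
          simp only [one_smul, zero_smul, add_zero, zero_add] at f1 f3
          have f4 : d2 • Rp a r' = c1 • Rp a r := by
            apply mul_right_cancel₀ hx
            rw [f2] at f1
            simp only [smul_eq_alg] at f1 ⊢
            linear_combination f1
          obtain ⟨rfl, -⟩ := rep_unique hd2 f4
          have f5 := mul_left_cancel₀ hR f3
          rw [f2, star_smul'] at f5
          have f6 : (d2 * s') • om a = c2 • (1 : QE a) + (d2 * e.im) • om a := by
            apply mul_right_cancel₀ hx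
            simp only [smul_eq_alg, map_mul] at f5 ⊢
            linear_combination f5
          have f7 := congrArg QuadraticAlgebra.im f6
          simp only [om, im_smul, im_add, im_one, smul_eq_mul, mul_one, mul_zero, zero_add] at f7
          rw [mul_left_cancel₀ hd2 f7]
        · exact absurd h (nG _ _)

theorem exists_base [Fintype F] :
    ∃ B : Option (Option F × F) → Set (Submodule F (QE a × QE a)),
      IsPar B ∧ MM a (QE a) ∈ B none := by
  obtain ⟨a1, b1, b0, h1, h2, h3, h4⟩ := exists_params (a := a)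
  exact ⟨BB a1 b1 b0, ⟨BB_dim a1 b1 b0, BB_cover h1, BB_part h2 h3 h4⟩, Or.inl rfl⟩

end Pool.Agent.P.MP_3b9ee7_co
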