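import Pool.Agent.P.MP_3b9ee7_co.Base

set_option autoImplicit false
set_option linter.unusedSectionVars false

/-! The weighted cover of the transversal lines of a plane over the quadratic extension. -/

namespace Pool.Agent.P.MP_3b9ee7_co

open QuadraticAlgebra Module

variable {F : Type} [Field F] {a : F} [Fact (∀ r : F, r ^ 2 ≠ a + 1 * r)]
variable {W : Type} [AddCommGroup W] [Module F W] [Module (QE a) W] [IsScalarTower F (QE a) W]

/-- Coordinates with respect to a pair of vectors. -/
def phi (o n : W) : (QE a × QE a) →ₗ[F] W where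
  toFun z := z.2 • o + z.1 • n
  map_add' z w := by simp only [Prod.snd_add, Prod.fst_add, add_smul]; abel
  map_smul' c z := by
    simp only [Prod.smul_snd, Prod.smul_fst, RingHom.id_apply, smul_add, smul_assoc]

/-- independence over the extension field -/
def Ind (a : F) {W : Type} [AddCommGroup W] [Fact (∀ r : F, r ^ 2 ≠ a + 1 * r)]
    [Module (QE a) W] (o n : W) : Prop :=
  ∀ x y : QE a, x • o + y • n = 0 → x = 0 ∧ y = 0

/-- contained in a point over the extension field -/
def InPt (a : F) {W : Type} [AddCommGroup W] [Fact (∀ r : F, r ^ 2 ≠ a + 1 * r)] [Module F W]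
    [Module (QE a) W] (U : Submodule F W) : Prop :=
  ∃ m : W, ∀ w ∈ U, ∃ x : QE a, w = x • m

theorem Ind.eq {o n : W} (h : Ind a o n) {x y x' y' : QE a}
    (e : x • o + y • n = x' • o + y' • n) : x = x' ∧ y = y' := by
  have := h (x - x') (y - y') (by
    rw [sub_smul, sub_smul, sub_add_sub_comm, e, sub_self])
  exact ⟨sub_eq_zero.mp this.1, sub_eq_zero.mp this.2⟩

/-- The line `{x o + (u x + v x̄) n}`. -/
def Ug (o n : W) (u v : QE a) : Submodule F W := (G LinearMap.id u v).map (phi o n)

theorem mem_Ug {o n : W} {u v : QE a} {w : W} :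
    w ∈ Ug o n u v ↔ ∃ x : QE a, w = x • o + (u * x + v * star x) • n := by
  simp only [Ug, Submodule.mem_map, mem_G]
  constructor
  · rintro ⟨z, ⟨x, rfl⟩, rfl⟩; exact ⟨x, rfl⟩
  · rintro ⟨x, rfl⟩; exact ⟨_, ⟨x, rfl⟩, rfl⟩

theorem phi_inj {o n : W} (h : Ind a o n) (z : QE a × QE a) (hz : phi o n z = 0) : z = 0 :=
  Prod.ext (h _ _ hz).2 (h _ _ hz).1

theorem finrank_Ug {o n : W} (h : Ind a o n) (u v : QE a) : finrank F (Ug o n u v) = 2 := by
  rw [Ug, finrank_map_of_inj _ _ (fun z _ hz => phi_inj h z hz)]
  exact finrank_G (fun _ _ h => h) _ _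

theorem Ug_inj {o n : W} (h : Ind a o n) {u v u' v' : QE a} (e : Ug o n u v = Ug o n u' v') :
    u = u' ∧ v = v' := by
  apply lin_unique
  intro x
  obtain ⟨y, hy⟩ := mem_Ug.mp (e ▸ (mem_Ug (o := o) (n := n) (u := u) (v := v)).mpr ⟨x, rfl⟩)
  obtain ⟨rfl, h2⟩ := h.eq hy
  exact h2

theorem om_sub : om a - star (om a) = dl a := by
  rw [sub_star']; simp [om]

theorem Ug_notInPt {o n : W} (h : Ind a o n) (u : QE a) {v : QE a} (hv : v ≠ 0) :
    ¬ InPt a (Ug o n u v) := by
  rintro ⟨m, hm⟩
  obtain ⟨c1, h1⟩ := hm _ (mem_Ug.mpr ⟨1, rfl⟩)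
  obtain ⟨c2, h2⟩ := hm _ (mem_Ug.mpr ⟨om a, rfl⟩)
  have e : (c2 * 1) • o + (c2 * (u * 1 + v * star 1)) • n
      = (c1 * om a) • o + (c1 * (u * om a + v * star (om a))) • n := by
    rw [mul_smul, mul_smul c2, ← smul_add, h1, mul_smul, mul_smul c1, ← smul_add, h2,
      smul_comm]
  obtain ⟨e1, e2⟩ := h.eq e
  rw [star_one] at e2
  have : c1 * v * dl a = 0 := by
    rw [← om_sub]; linear_combination e2 - (u + v) * e1
  have hc : c1 = 0 := by simpa [hv, dl_ne] using this
  rw [hc, zero_smul] at h1
  exact one_ne_zero (h _ _ h1).1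

/-- complementary vector for the hole `η` -/
def oo (e1 e2 : W) : Option (QE a) → W
  | none => e1
  | some _ => e2

/-- generator of the hole `η` -/
def nn (e1 e2 : W) : Option (QE a) → W
  | none => e2
  | some h => e1 + h • e2

open Classical in
/-- the map `F → F*` with one value taken twice -/
noncomputable def sg (s : F) : F := if s = 0 then 1 else s

/-- the slope of class `j` at the hole `η` -/
noncomputable def bb (a : F) [Fact (∀ r : F, r ^ 2 ≠ a + 1 * r)] :
    Option (QE a) → Option F × F → QE a
  | none, j => (star (Rp a j.1))⁻¹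
  | some _, j => sg j.2 • Rp a j.1

theorem sg_ne (s : F) : sg s ≠ 0 := by
  unfold sg; split_ifs with h
  · exact one_ne_zero
  · exact h

theorem bb_ne (η : Option (QE a)) (j : Option F × F) : bb a η j ≠ 0 := by
  cases η with
  | none => exact inv_ne_zero (star_ne (Rp_ne _))
  | some h => exact smul_ne_zero (sg_ne _) (Rp_ne _)

theorem Ind.hole {e1 e2 : W} (h : Ind a e1 e2) (η : Option (QE a)) :
    Ind a (oo e1 e2 η) (nn e1 e2 η) := by
  cases η with
  | none => exact h
  | some k =>
    intro x y e
    simp only [oo, nn] at e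
    obtain ⟨h1, h2⟩ := h y (x + y * k) (by
      rw [← e, smul_add, add_smul, mul_smul]; abel)
    subst h1
    exact ⟨by simpa using h2, rfl⟩

theorem circle_iff {e1 e2 : W} (h : Ind a e1 e2) (u0 : QE a) {v0 : QE a} (hv : v0 ≠ 0)
    (k b : QE a) : (∃ u, Ug e1 e2 u0 v0 = Ug e2 (e1 + k • e2) u b) ↔
      ((norm (u0 - k) : F) - norm v0) • b = -v0 := by
  have hD : algebraMap F (QE a) ((norm (u0 - k) : F) - norm v0)
      = (u0 - k) * star (u0 - k) - v0 * star v0 := by
    rw [map_sub, algebraMap_norm_eq_mul_star, algebraMap_norm_eq_mul_star]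
  have hs : star (u0 - k) = star u0 - star k := star_sub _ _
  rw [smul_eq_alg]
  constructor
  · rintro ⟨u, e⟩
    have key : ∀ x : QE a, ((u0 - k) * u + v0 * star b) * x + ((u0 - k) * b + v0 * star u) * star x
        = 1 * x + 0 * star x := by
      intro x
      obtain ⟨y, hy⟩ := mem_Ug.mp
        (e ▸ (mem_Ug (o := e2) (n := e1 + k • e2) (u := u) (v := b)).mpr ⟨x, rfl⟩)
      have hy' : (u * x + b * star x) • e1 + (x + (u * x + b * star x) * k) • e2
          = y • e1 + (u0 * y + v0 * star y) • e2 := by
        rw [← hy, smul_add, add_smul x, mul_smul _ k]; abel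
      obtain ⟨rfl, h2⟩ := h.eq hy'
      rw [star_add, star_mul, star_mul, star_star] at h2
      linear_combination -h2
    obtain ⟨k1, k2⟩ := lin_unique key
    have k3 := congrArg star k1
    rw [star_add, star_mul, star_mul, star_star, star_one] at k3
    rw [hD]
    linear_combination star (u0 - k) * k2 - v0 * k3
  · intro e
    set D := algebraMap F (QE a) ((norm (u0 - k) : F) - norm v0) with hDdef
    have hD0 : D ≠ 0 := by
      intro h0; rw [h0, zero_mul] at e; exact hv (neg_eq_zero.mp e.symm)
    have hDs : star D = D := by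
      rw [hD, star_sub (_ * _), star_mul, star_mul, star_star, star_star]
    have hb : b = -v0 / D := by rw [← e]; field_simp
    refine ⟨star (u0 - k) / D, (eq_of_le_two ?_ (finrank_Ug (h.hole (some k)) _ _)
      (finrank_Ug h _ _)).symm⟩
    intro w hw
    obtain ⟨x, rfl⟩ := mem_Ug.mp hw
    set y := star (u0 - k) / D * x + b * star x with hy
    refine mem_Ug.mpr ⟨y, ?_⟩
    have h2 : u0 * y + v0 * star y = x + y * k := by
      have hy2 : star y = (u0 - k) / D * star x + star b * x := by
        rw [hy, star_add, star_mul, star_mul, star_star, star_div₀, star_star, hDs]; ring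
      have hb2 : star b = -star v0 / D := by rw [hb, star_div₀, hDs, star_neg]
      rw [hy2, hb2, hy, hb]
      field_simp
      linear_combination (-x) * hD
    simp only [oo, nn]
    rw [h2, smul_add, add_smul x, mul_smul _ k]; abel

theorem line_iff {e1 e2 : W} (h : Ind a e1 e2) {U : Submodule F W} (hU : finrank F U = 2)
    {be ga de : QE a} (hbe : be ≠ 0) (hga : ga ≠ 0) (h1 : be • e2 ∈ U)
    (h2 : ga • e1 + de • e2 ∈ U) (k b : QE a) :
    (∃ u, U = Ug e2 (e1 + k • e2) u b) ↔
      ((de - k * ga) * star be).im • b = -(ga * be) / dl a := by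
  have hdl := dl_ne (a := a)
  have hs := sub_star' ((de - k * ga) * star be)
  rw [star_mul, star_star, smul_eq_alg] at hs
  rw [smul_eq_alg, eq_div_iff hdl]
  constructor
  · rintro ⟨u, rfl⟩
    obtain ⟨x, hx⟩ := mem_Ug.mp h1
    obtain ⟨y, hy⟩ := mem_Ug.mp h2
    have hx' : (0 : QE a) • e1 + be • e2
        = (u * x + b * star x) • e1 + (x + (u * x + b * star x) * k) • e2 := by
      rw [zero_smul, zero_add, hx, smul_add, add_smul x, mul_smul _ k]; abel
    have hy' : ga • e1 + de • e2
        = (u * y + b * star y) • e1 + (y + (u * y + b * star y) * k) • e2 := by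
      rw [hy, smul_add, add_smul y, mul_smul _ k]; abel
    obtain ⟨a1, a2⟩ := h.eq hx'
    obtain ⟨a3, a4⟩ := h.eq hy'
    rw [← a1, zero_mul, add_zero] at a2
    subst a2
    rw [← a3] at a4
    have a5 : de - k * ga = y := by rw [a4]; ring
    rw [a5] at hs ⊢
    linear_combination (-b) * hs - y * a1 + be * a3
  · intro e
    have hspan : Submodule.span F {be • e2, ga • e1 + de • e2} = U := by
      refine eq_of_le_two ?_ (finrank_pair ?_) hU
      · rw [Submodule.span_le]
        rintro z (rfl | rfl)
        · exact h1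
        · exact h2
      · intro c d hcd
        have : (d • ga) • e1 + (c • be + d • de) • e2 = 0 := by
          rw [← hcd, add_smul, smul_add, smul_assoc, smul_assoc, smul_assoc]; abel
        obtain ⟨q1, q2⟩ := h _ _ this
        have hd : d = 0 := by simpa [hga] using q1
        subst hd
        simpa [hbe] using q2
    refine ⟨-(b * star be) / be, eq_of_le_two ?_ hU (finrank_Ug (h.hole (some k)) _ _)⟩
    rw [← hspan, Submodule.span_le]
    rintro z (rfl | rfl)
    · refine mem_Ug.mpr ⟨be, ?_⟩
      have : -(b * star be) / be * be + b * star be = 0 := by field_simp; ring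
      rw [this, zero_smul, add_zero]
    · refine mem_Ug.mpr ⟨de - k * ga, ?_⟩
      have : -(b * star be) / be * (de - k * ga) + b * star (de - k * ga) = ga := by
        field_simp
        linear_combination (-b) * hs - e
      rw [this, smul_add, sub_smul, mul_smul, smul_comm ga k]; abel

variable [Fintype F]

open Classical in
theorem cnt (D c : F) (hc : c ≠ 0) (r0 : Option F) :
    (∑ j : Option F × F, if D • (sg j.2 • Rp a j.1) = c • Rp a r0 then 1 else 0 : ℕ)
      = (if D ≠ 0 then 1 else 0) + (if D = c then 1 else 0) := by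
  have h1 : ∀ j : Option F × F, (D • (sg j.2 • Rp a j.1) = c • Rp a r0) ↔
      (j.1 = r0 ∧ D * sg j.2 = c) := by
    intro j
    rw [← mul_smul]
    constructor
    · intro h
      obtain ⟨q1, q2⟩ := rep_unique hc h.symm
      exact ⟨q1.symm, q2.symm⟩
    · rintro ⟨rfl, rfl⟩; rfl
  simp only [h1]
  rw [Fintype.sum_prod_type, Finset.sum_eq_single r0 (fun r _ hr => by simp [hr]) (by simp)]
  simp only [true_and]
  rw [← Finset.add_sum_erase _ _ (Finset.mem_univ (0 : F)), add_comm]
  congr 1
  · by_cases hD : D = 0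
    · simp [hD, hc.symm]
    · rw [if_pos hD, Finset.sum_eq_single (c / D)]
      · have : sg (c / D) = c / D := by simp [sg, hc, hD]
        rw [this, if_pos (by field_simp)]
      · intro s hs hne
        have hs0 := Finset.ne_of_mem_erase hs
        have : sg s = s := by simp [sg, hs0]
        rw [this, if_neg]
        intro h; apply hne; rw [← h]; field_simp
      · intro h; exact absurd (Finset.mem_erase.mpr ⟨div_ne_zero hc hD, Finset.mem_univ _⟩) h
  · simp [sg]

open Classical in
theorem im_fibre (t : F) :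
    (Finset.univ.filter fun z : QE a => z.im = t).card = Fintype.card F := by
  rw [← Finset.card_univ]
  symm
  apply Finset.card_bij (fun x _ => (⟨x, t⟩ : QE a))
  · intro x _; simp
  · intro x _ y _ h; exact congrArg QuadraticAlgebra.re h
  · intro z hz
    simp only [Finset.mem_filter, Finset.mem_univ, true_and] at hz
    exact ⟨z.re, Finset.mem_univ _, by ext <;> simp [hz]⟩

open Classical in
theorem plane_count {e1 e2 : W} (h : Ind a e1 e2) {U : Submodule F W} (hU : finrank F U = 2)
    (hle : ∀ w ∈ U, ∃ x y : QE a, w = x • e1 + y • e2) (hpt : ¬ InPt a U) :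
    Nat.card {p : Option (QE a) × (Option F × F) //
      ∃ u, U = Ug (oo e1 e2 p.1) (nn e1 e2 p.1) u (bb a p.1 p.2)} = Fintype.card F ^ 2 := by
  rw [Nat.card_eq_fintype_card, Fintype.card_subtype, Finset.card_filter, Fintype.sum_prod_type,
    Fintype.sum_option]
  simp only [oo, nn, bb]
  by_cases hA : ∀ y : QE a, y • e2 ∈ U → y = 0
  · have hmap : (U.comap (phi (a := a) e1 e2)).map (phi e1 e2) = U := by
      apply Submodule.map_comap_eq_self
      intro w hw
      obtain ⟨x, y, rfl⟩ := hle w hw
      exact ⟨(y, x), rfl⟩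
    set X := U.comap (phi (a := a) e1 e2) with hX
    have hX2 : finrank F X = 2 := by
      rw [← finrank_map_of_inj (phi e1 e2) X (fun z _ hz => phi_inj h z hz), hmap, hU]
    have hinj : ∀ z ∈ X, LinearMap.snd F (QE a) (QE a) z = 0 → z = 0 := by
      rintro ⟨y, x⟩ hz hz0
      simp only [LinearMap.snd_apply] at hz0
      subst hz0
      have : y • e2 ∈ U := by simpa [hX, phi] using hz
      rw [hA y this]; rfl
    have hm : X.map (LinearMap.snd F (QE a) (QE a)) = ⊤ :=
      Submodule.eq_top_of_finrank_eq (by rw [finrank_map_of_inj _ _ hinj, hX2, finrank_QE])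
    obtain ⟨u0, v0, huv⟩ := exists_G (g := LinearMap.id) (fun _ _ h => h) hX2
      (by rw [hm]; exact le_top)
    have hUU : U = Ug e1 e2 u0 v0 := by rw [Ug, ← huv, hmap]
    have hv : v0 ≠ 0 := by
      rintro rfl
      refine hpt ⟨e1 + u0 • e2, fun w hw => ?_⟩
      obtain ⟨x, rfl⟩ := mem_Ug.mp (hUU ▸ hw)
      exact ⟨x, by rw [zero_mul, add_zero, smul_add, mul_comm, mul_smul]⟩
    obtain ⟨r0, c, hc, hr⟩ := exists_rep hv
    have hneg : -v0 = (-c) • Rp a r0 := by rw [hr, neg_smul]
    rw [hUU]
    simp only [circle_iff h u0 hv, hneg, cnt _ _ (neg_ne_zero.mpr hc)]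
    have hN := norm_ne hv
    have e0 : ∀ j : Option F × F, (∃ u, Ug e1 e2 u0 v0 = Ug e1 e2 u (star (Rp a j.1))⁻¹) ↔
        (j.1 = r0 ∧ c = norm v0) := by
      intro j
      have hs := star_ne (Rp_ne (a := a) j.1)
      have hm := algebraMap_norm_eq_mul_star v0
      constructor
      · rintro ⟨u, e⟩
        have e1 := (Ug_inj h e).2
        have e2 : star v0 * Rp a j.1 = 1 := by
          rw [e1, star_inv₀, star_star]; exact inv_mul_cancel₀ (Rp_ne _)
        have e3 : c • Rp a r0 = (norm v0 : F) • Rp a j.1 := by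
          rw [← hr, smul_eq_alg, hm, mul_assoc, e2, mul_one]
        obtain ⟨q1, q2⟩ := rep_unique hc e3
        exact ⟨q1.symm, q2⟩
      · rintro ⟨q1, q2⟩
        refine ⟨u0, ?_⟩
        congr 1
        rw [q1]
        apply eq_inv_of_mul_eq_one_left
        apply mul_left_cancel₀ (alg_ne (a := a) hc)
        have : star v0 = algebraMap F (QE a) c * star (Rp a r0) := by
          rw [hr, star_smul', smul_eq_alg]
        rw [mul_one]
        conv_rhs => rw [q2, hm, this]
        ring
    simp only [e0]
    rw [Finset.sum_add_distrib]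
    have s1 : (∑ k : QE a, if (norm (u0 - k) : F) - norm v0 ≠ 0 then 1 else 0 : ℕ)
        + (Fintype.card F + 1) = Fintype.card F ^ 2 := by
      rw [← norm_fibre (a := a) _ hN, Finset.card_filter,
        ← Equiv.sum_comp (Equiv.subLeft u0) (fun x : QE a => if norm x = norm v0 then 1 else 0),
        ← Finset.sum_add_distrib, ← card_QE (a := a), ← Finset.card_univ, Finset.card_eq_sum_ones]
      refine Finset.sum_congr rfl fun k _ => ?_
      by_cases hk : (norm (u0 - k) : F) = norm v0
      · simp [hk]
      · simp [hk, sub_eq_zero]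
    have s2 : (∑ k : QE a, if (norm (u0 - k) : F) - norm v0 = -c then 1 else 0 : ℕ)
        = (Finset.univ.filter fun x : QE a => norm x = norm v0 - c).card := by
      rw [Finset.card_filter,
        ← Equiv.sum_comp (Equiv.subLeft u0) (fun x : QE a => if norm x = norm v0 - c then 1 else 0)]
      refine Finset.sum_congr rfl fun k _ => ?_
      simp only [Equiv.subLeft_apply]
      congr 1
      apply propext
      constructor <;> intro hh <;> linear_combination hh
    rw [s2]
    by_cases hcN : c = norm v0
    · rw [← hcN, sub_self, norm_fibre_zero, Fintype.sum_prod_type,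
        Finset.sum_eq_single r0 (fun r _ hr => by simp [hr]) (by simp)]
      rw [← hcN] at s1
      simp only [and_self, if_true, Finset.sum_const, Finset.card_univ, smul_eq_mul, mul_one]
      omega
    · rw [norm_fibre _ (sub_ne_zero.mpr (Ne.symm hcN))]
      simp only [hcN, and_false, if_false, Finset.sum_const_zero, zero_add]
      exact s1
  · push Not at hA
    obtain ⟨be, h1, hbe⟩ := hA
    have : ∃ w ∈ U, ∀ x : QE a, w ≠ x • e2 := by
      by_contra hcon
      push Not at hcon
      exact hpt ⟨e2, hcon⟩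
    obtain ⟨w, h2, hw⟩ := this
    obtain ⟨ga, de, rfl⟩ := hle w h2
    have hga : ga ≠ 0 := by rintro rfl; exact hw de (by simp)
    have hc0 : -(ga * be) / dl a ≠ 0 := div_ne_zero (neg_ne_zero.mpr (mul_ne_zero hga hbe)) dl_ne
    obtain ⟨r0, c, hc, hr⟩ := exists_rep hc0
    simp only [line_iff h hU hbe hga h1 h2, hr, cnt _ _ hc]
    have e0 : ∀ j : Option F × F, ¬ ∃ u, U = Ug e1 e2 u (star (Rp a j.1))⁻¹ := by
      rintro j ⟨u, rfl⟩
      obtain ⟨x, hx⟩ := mem_Ug.mp h1
      have hx' : (0 : QE a) • e1 + be • e2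
          = x • e1 + (u * x + (star (Rp a j.1))⁻¹ * star x) • e2 := by
        rw [zero_smul, zero_add]; exact hx
      obtain ⟨rfl, q2⟩ := h.eq hx'
      exact hbe (by simpa using q2)
    simp only [e0, if_false, Finset.sum_const_zero, zero_add]
    have hsb := star_ne hbe
    let ee : QE a ≃ QE a :=
      { toFun := fun k => (de - k * ga) * star be
        invFun := fun z => (de - z / star be) / ga
        left_inv := fun k => by simp only; field_simp; ring
        right_inv := fun z => by simp only; field_simp; ring }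
    have := Equiv.sum_comp ee
      (fun z : QE a => ((if z.im ≠ 0 then 1 else 0) + (if z.im = c then 1 else 0) : ℕ))
    refine this.trans ?_
    rw [← card_QE (a := a), Finset.sum_add_distrib,
      ← Finset.card_filter (fun z : QE a => z.im = c), im_fibre,
      ← im_fibre (a := a) 0, Finset.card_filter, ← Finset.sum_add_distrib,
      ← Finset.card_univ, Finset.card_eq_sum_ones]
    refine Finset.sum_congr rfl fun z _ => ?_
    by_cases hz : z.im = 0 <;> simp [hz]

end Pool.Agent.P.MP_3b9ee7_co
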