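import Pool.Agent.P.MP_3b9ee7_co.Frame

set_option autoImplicit false
set_option linter.unusedSectionVars false

/-! Gluing the planes: the weighted cover of all transversal lines. -/

namespace Pool.Agent.P.MP_3b9ee7_co

open QuadraticAlgebra Module
open scoped LinearAlgebra.Projectivization

variable {F : Type} [Field F] {a : F} [Fact (∀ r : F, r ^ 2 ≠ a + 1 * r)]
variable {W : Type} [AddCommGroup W] [Module F W] [Module (QE a) W] [IsScalarTower F (QE a) W]

theorem exists_basis (l : Submodule (QE a) W) (hl : finrank (QE a) l = 2) :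
    ∃ e1 e2 : W, Ind a e1 e2 ∧ Submodule.span (QE a) {e1, e2} = l := by
  haveI : Module.Finite (QE a) l := Module.finite_of_finrank_pos (by omega)
  let b := Module.finBasisOfFinrankEq (QE a) l hl
  have hi : Ind a (b 0 : W) (b 1 : W) := by
    intro x y h
    have h2 := LinearIndependent.pair_iff.mp
      (show LinearIndependent (QE a) ![b 0, b 1] from by
        convert b.linearIndependent using 1
        ext i; fin_cases i <;> rfl) x y (Subtype.ext h)
    exact h2
  refine ⟨b 0, b 1, hi, eq_of_le_two ?_ (finrank_pair hi) hl⟩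
  rw [Submodule.span_le]
  rintro z (rfl | rfl)
  · exact (b 0).2
  · exact (b 1).2

theorem span_hole (e1 e2 : W) (η : Option (QE a)) :
    Submodule.span (QE a) {oo e1 e2 η, nn e1 e2 η} = Submodule.span (QE a) {e1, e2} := by
  cases η with
  | none => rfl
  | some k =>
    simp only [oo, nn]
    ext w
    simp only [Submodule.mem_span_pair]
    constructor
    · rintro ⟨x, y, rfl⟩
      exact ⟨y, x + y * k, by rw [smul_add, add_smul, mul_smul]; abel⟩
    · rintro ⟨x, y, rfl⟩
      exact ⟨y - x * k, x, by rw [smul_add, sub_smul, mul_smul]; abel⟩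

theorem span_Ug (o n : W) (u : QE a) {v : QE a} (hv : v ≠ 0) :
    Submodule.span (QE a) (Ug o n u v : Set W) = Submodule.span (QE a) {o, n} := by
  apply le_antisymm
  · rw [Submodule.span_le]
    intro w hw
    obtain ⟨x, rfl⟩ := mem_Ug.mp hw
    exact Submodule.mem_span_pair.mpr ⟨_, _, rfl⟩
  · set S := Submodule.span (QE a) (Ug o n u v : Set W)
    have h1 : _ ∈ S := Submodule.subset_span (mem_Ug.mpr ⟨1, rfl⟩)
    have h2 : _ ∈ S := Submodule.subset_span (mem_Ug.mpr ⟨om a, rfl⟩)
    have hn : n ∈ S := by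
      have h3 := S.smul_mem (v * dl a)⁻¹ (S.sub_mem (S.smul_mem (om a) h1) h2)
      convert h3 using 1
      have : om a * (u * 1 + v * star 1) - (u * om a + v * star (om a)) = v * dl a := by
        rw [← om_sub, star_one]; ring
      rw [smul_add, ← mul_smul, ← mul_smul, mul_one, add_sub_add_left_eq_sub, ← sub_smul, this,
        ← mul_smul, inv_mul_cancel₀ (mul_ne_zero hv dl_ne), one_smul]
    have ho : o ∈ S := by
      have := S.sub_mem h1 (S.smul_mem (u * 1 + v * star 1) hn)
      simpa using this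
    rw [Submodule.span_le]
    rintro z (rfl | rfl)
    · exact ho
    · exact hn

theorem nn_ne {e1 e2 : W} (h : Ind a e1 e2) (η : Option (QE a)) : nn e1 e2 η ≠ 0 := by
  intro h0
  exact one_ne_zero ((h.hole η) 0 1 (by rw [h0]; simp)).2

theorem nn_inj {e1 e2 : W} (h : Ind a e1 e2) {η η' : Option (QE a)} {m : W} {c c' : QE a}
    (e : nn e1 e2 η = c • m) (e' : nn e1 e2 η' = c' • m) : η = η' := by
  have hc : c ≠ 0 := by rintro rfl; exact nn_ne h η (by simpa using e)
  have hc' : c' ≠ 0 := by rintro rfl; exact nn_ne h η' (by simpa using e')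
  have k : c' • nn e1 e2 η = c • nn e1 e2 η' := by rw [e, e', smul_comm]
  cases η with
  | none =>
    cases η' with
    | none => rfl
    | some k' =>
      simp only [nn] at k
      have : (0 : QE a) • e1 + c' • e2 = c • e1 + (c * k') • e2 := by
        rw [zero_smul, zero_add, k, smul_add, mul_smul]
      exact absurd (h.eq this).1.symm hc
  | some k0 =>
    cases η' with
    | none =>
      simp only [nn] at k
      have : (0 : QE a) • e1 + c • e2 = c' • e1 + (c' * k0) • e2 := by
        rw [zero_smul, zero_add, ← k, smul_add, mul_smul]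
      exact absurd (h.eq this).1.symm hc'
    | some k' =>
      simp only [nn] at k
      rw [smul_add, smul_add, ← mul_smul, ← mul_smul] at k
      obtain ⟨rfl, h2⟩ := h.eq k
      rw [mul_left_cancel₀ hc h2]

theorem nn_surj {e1 e2 m : W} (hm : m ∈ Submodule.span (QE a) {e1, e2}) (hm0 : m ≠ 0) :
    ∃ (η : Option (QE a)) (c : QE a), nn e1 e2 η = c • m := by
  obtain ⟨x, y, rfl⟩ := Submodule.mem_span_pair.mp hm
  by_cases hx : x = 0
  · subst hx
    have hy : y ≠ 0 := by rintro rfl; exact hm0 (by simp)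
    exact ⟨none, y⁻¹, by simp [nn, ← mul_smul, hy]⟩
  · refine ⟨some (y / x), x⁻¹, ?_⟩
    simp only [nn, smul_add, ← mul_smul, inv_mul_cancel₀ hx, one_smul]
    rw [div_eq_inv_mul]

theorem ind_of_not {w m : W} (hm : m ≠ 0) (hw : ¬ ∃ x : QE a, w = x • m) : Ind a w m := by
  intro x y h
  by_cases hx : x = 0
  · subst hx
    simpa [hm] using h
  · exfalso
    refine hw ⟨-(x⁻¹ * y), ?_⟩
    have : x • w = -(y • m) := eq_neg_of_add_eq_zero_left h
    rw [neg_smul, mul_smul, ← smul_neg, ← this, ← mul_smul, inv_mul_cancel₀ hx, one_smul]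

theorem finrank_span_notInPt {U : Submodule F W} (hU : finrank F U = 2) (hpt : ¬ InPt a U) :
    finrank (QE a) (Submodule.span (QE a) (U : Set W)) = 2 := by
  obtain ⟨g, hg, rfl⟩ := exists_param (a := a) U hU
  have hx : ∀ x : QE a, g x = algebraMap F (QE a) x.im • g (om a)
      + algebraMap F (QE a) x.re • g 1 := by
    intro x
    conv_lhs => rw [decomp x]
    rw [map_add, map_smul, map_smul, algebraMap_smul, algebraMap_smul]
  have h1 : g 1 ≠ 0 := fun h => one_ne_zero (hg (h.trans (map_zero g).symm))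
  have hi : Ind a (g (om a)) (g 1) := by
    apply ind_of_not h1
    rintro ⟨c, hc⟩
    refine hpt ⟨g 1, ?_⟩
    rintro w ⟨x, rfl⟩
    exact ⟨_, by rw [hx x, hc, ← mul_smul, ← add_smul]⟩
  suffices hh : Submodule.span (QE a) (LinearMap.range g : Set W)
      = Submodule.span (QE a) {g (om a), g 1} by rw [hh]; exact finrank_pair hi
  apply le_antisymm
  · rw [Submodule.span_le]
    rintro w ⟨x, rfl⟩
    exact Submodule.mem_span_pair.mpr ⟨_, _, (hx x).symm⟩
  · apply Submodule.span_mono
    rintro z (rfl | rfl)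
    · exact LinearMap.mem_range_self g _
    · exact LinearMap.mem_range_self g _

theorem exists_cover [Fintype F] :
    ∃ T : ℙ (QE a) W × (Option F × F) → Set (Submodule F W),
      (∀ c U, U ∈ T c → finrank F U = 2 ∧ ¬ InPt a U ∧
        ∀ w ∈ U, (∃ x : QE a, w = x • c.1.rep) → w = 0) ∧
      (∀ c w, (¬ ∃ x : QE a, w = x • c.1.rep) → ∃! U, U ∈ T c ∧ w ∈ U) ∧
      (∀ U : Submodule F W, finrank F U = 2 → ¬ InPt a U → Nonempty ({c // U ∈ T c} ≃ QE a)) := by
  have hb : ∀ l : {l : Submodule (QE a) W // finrank (QE a) l = 2},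
      ∃ e1 e2 : W, Ind a e1 e2 ∧ Submodule.span (QE a) {e1, e2} = l.1 :=
    fun l => exists_basis l.1 l.2
  choose e1 e2 hi hs using hb
  refine ⟨fun c => {U | ∃ l η u, (∃ k : QE a, nn (e1 l) (e2 l) η = k • c.1.rep) ∧
    U = Ug (oo (e1 l) (e2 l) η) (nn (e1 l) (e2 l) η) u (bb a η c.2)}, ?_, ?_, ?_⟩
  · rintro c U ⟨l, η, u, ⟨k, hk⟩, rfl⟩
    have hh := (hi l).hole η
    refine ⟨finrank_Ug hh _ _, Ug_notInPt hh _ (bb_ne _ _), ?_⟩
    rintro w hw ⟨x, hx⟩
    have hk0 : k ≠ 0 := by rintro rfl; exact nn_ne (hi l) η (by simpa using hk)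
    obtain ⟨y, hy⟩ := mem_Ug.mp hw
    have : (0 : QE a) • oo (e1 l) (e2 l) η + (x * k⁻¹) • nn (e1 l) (e2 l) η = _ :=
      (by rw [zero_smul, zero_add, hk, ← mul_smul, mul_assoc, inv_mul_cancel₀ hk0, mul_one,
        ← hx] : _ = w).trans hy
    obtain ⟨rfl, -⟩ := hh.eq this
    simpa using hy
  · rintro ⟨i, j⟩ w hw
    have hind := ind_of_not i.rep_nonzero hw
    let l0 : {l : Submodule (QE a) W // finrank (QE a) l = 2} :=
      ⟨Submodule.span (QE a) {w, i.rep}, finrank_pair hind⟩
    obtain ⟨η, k, hk⟩ := nn_surj (e1 := e1 l0) (e2 := e2 l0) (m := i.rep)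
      (by rw [hs]; exact Submodule.subset_span (by simp)) i.rep_nonzero
    have hwl : w ∈ Submodule.span (QE a) {oo (e1 l0) (e2 l0) η, nn (e1 l0) (e2 l0) η} := by
      rw [span_hole, hs]; exact Submodule.subset_span (by simp)
    obtain ⟨x, y, hxy⟩ := Submodule.mem_span_pair.mp hwl
    have hx : x ≠ 0 := by
      rintro rfl
      exact hw ⟨y * k, by rw [← hxy, zero_smul, zero_add, hk, mul_smul]⟩
    refine ⟨_, ⟨⟨l0, η, (y - bb a η j * star x) / x, ⟨k, hk⟩, rfl⟩, mem_Ug.mpr ⟨x, ?_⟩⟩, ?_⟩
    · rw [← hxy]; congr 2; field_simp; ring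
    · rintro U ⟨⟨l, η', u, ⟨k', hk'⟩, rfl⟩, hU⟩
      have hk0 : k' ≠ 0 := by rintro rfl; exact nn_ne (hi l) η' (by simpa using hk')
      have hl : l0 = l := by
        refine Subtype.ext (eq_of_le_two ?_ l0.2 l.2)
        rw [← hs l, ← span_hole _ _ η', Submodule.span_le]
        rintro z (rfl | rfl)
        · obtain ⟨x', rfl⟩ := mem_Ug.mp hU
          exact Submodule.mem_span_pair.mpr ⟨_, _, rfl⟩
        · exact Submodule.mem_span_pair.mpr ⟨0, k'⁻¹, by
            simp only at hk'
            rw [zero_smul, zero_add, hk', ← mul_smul, inv_mul_cancel₀ hk0, one_smul]⟩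
      subst hl
      have hη := nn_inj (hi l0) hk hk'
      subst hη
      obtain ⟨x', hx'⟩ := mem_Ug.mp hU
      obtain ⟨rfl, h2⟩ := ((hi l0).hole η).eq (hxy.trans hx')
      congr 1
      rw [h2]; field_simp; ring
  · intro U hU hpt
    let l0 : {l : Submodule (QE a) W // finrank (QE a) l = 2} :=
      ⟨Submodule.span (QE a) (U : Set W), finrank_span_notInPt hU hpt⟩
    have hcount := plane_count (hi l0) hU (fun w hw => by
      have : w ∈ Submodule.span (QE a) {e1 l0, e2 l0} := by
        rw [hs]; exact Submodule.subset_span hw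
      obtain ⟨x, y, h⟩ := Submodule.mem_span_pair.mp this
      exact ⟨x, y, h.symm⟩) hpt
    have hrep : ∀ η : Option (QE a), ∃ k : QE a, nn (e1 l0) (e2 l0) η
        = k • (Projectivization.mk (QE a) _ (nn_ne (hi l0) η)).rep := by
      intro η
      obtain ⟨k, hk⟩ := Projectivization.exists_smul_eq_mk_rep (QE a) _ (nn_ne (hi l0) η)
      exact ⟨(k⁻¹ : (QE a)ˣ), by rw [← hk, Units.smul_def, ← mul_smul]; simp⟩
    let f : {p : Option (QE a) × (Option F × F) //
        ∃ u, U = Ug (oo (e1 l0) (e2 l0) p.1) (nn (e1 l0) (e2 l0) p.1) u (bb a p.1 p.2)} →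
        {c : ℙ (QE a) W × (Option F × F) // U ∈ {U | ∃ l η u,
          (∃ k : QE a, nn (e1 l) (e2 l) η = k • c.1.rep) ∧
          U = Ug (oo (e1 l) (e2 l) η) (nn (e1 l) (e2 l) η) u (bb a η c.2)}} :=
      fun p => ⟨(Projectivization.mk (QE a) _ (nn_ne (hi l0) p.1.1), p.1.2), by
        obtain ⟨u, hu⟩ := p.2
        exact ⟨l0, p.1.1, u, hrep _, hu⟩⟩
    have hf : Function.Bijective f := by
      constructor
      · rintro ⟨⟨η, j⟩, hp⟩ ⟨⟨η', j'⟩, hp'⟩ h
        have h1 := congrArg (fun c => c.1.1) h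
        have h2 := congrArg (fun c => c.1.2) h
        simp only [f] at h1 h2
        obtain ⟨k, hk⟩ := hrep η
        obtain ⟨k', hk'⟩ := hrep η'
        rw [h1] at hk
        have := nn_inj (hi l0) hk hk'
        subst this
        subst h2
        rfl
      · rintro ⟨⟨i, j⟩, l, η, u, ⟨k, hk⟩, hu⟩
        have hl : l0 = l := by
          apply Subtype.ext
          simp only [l0]
          rw [hu, span_Ug _ _ _ (bb_ne _ _), span_hole, hs]
        subst hl
        refine ⟨⟨(η, j), u, hu⟩, Subtype.ext (Prod.ext ?_ rfl)⟩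
        simp only [f]
        rw [← i.mk_rep, Projectivization.mk_eq_mk_iff']
        exact ⟨k, hk.symm⟩
    refine ⟨(Equiv.ofBijective f hf).symm.trans (Finite.card_eq.mp ?_).some⟩
    rw [hcount, Nat.card_eq_fintype_card, card_QE]

end Pool.Agent.P.MP_3b9ee7_co
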