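import Pool.Agent.P.MP_3b9ee7_co.Alg

set_option autoImplicit false
set_option linter.unusedSectionVars false

/-! Graphs of linear maps and the lifting lemma. -/

namespace Pool.Agent.P.MP_3b9ee7_co

open QuadraticAlgebra Module

variable {F : Type} [Field F]

/-- A family of line spreads that partitions the lines. -/
structure IsPar {V C : Type} [AddCommGroup V] [Module F V] (S : C → Set (Submodule F V)) :
    Prop where
  dim : ∀ c X, X ∈ S c → finrank F X = 2
  cover : ∀ c v, v ≠ 0 → ∃! X, X ∈ S c ∧ v ∈ X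
  part : ∀ X : Submodule F V, finrank F X = 2 → ∃! c, X ∈ S c

theorem eq_of_le_two {V : Type} [AddCommGroup V] [Module F V] {X Y : Submodule F V}
    (h : X ≤ Y) (hX : finrank F X = 2) (hY : finrank F Y = 2) : X = Y := by
  haveI : Module.Finite F Y := Module.finite_of_finrank_pos (by omega)
  exact Submodule.eq_of_le_of_finrank_eq h (hX.trans hY.symm)

variable {a : F} {W : Type} [AddCommGroup W] [Module F W]

theorem finrank_QE : finrank F (QE a) = 2 := QuadraticAlgebra.finrank_eq_two a 1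

/-- The graph of `x ↦ u x + v x̄` over the parametrised plane `g`. -/
def G (g : QE a →ₗ[F] W) (u v : QE a) : Submodule F (QE a × W) :=
  LinearMap.range ((lin u v).prod g)

theorem mem_G {g : QE a →ₗ[F] W} {u v : QE a} {z : QE a × W} :
    z ∈ G g u v ↔ ∃ x, z = (u * x + v * star x, g x) := by
  simp only [G, LinearMap.mem_range]
  constructor
  · rintro ⟨x, hx⟩; exact ⟨x, hx.symm⟩
  · rintro ⟨x, hx⟩; exact ⟨x, hx.symm⟩

theorem finrank_range_inj {V : Type} [AddCommGroup V] [Module F V] {g : QE a →ₗ[F] V}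
    (hg : Function.Injective g) : finrank F (LinearMap.range g) = 2 := by
  rw [LinearMap.finrank_range_of_inj hg, finrank_QE]

theorem finrank_G {g : QE a →ₗ[F] W} (hg : Function.Injective g) (u v : QE a) :
    finrank F (G g u v) = 2 := by
  apply finrank_range_inj
  intro x y h
  exact hg (congrArg Prod.snd h)

theorem map_snd_G (g : QE a →ₗ[F] W) (u v : QE a) :
    (G g u v).map (LinearMap.snd F (QE a) W) = LinearMap.range g := by
  rw [G, ← LinearMap.range_comp]; rfl

theorem exists_param (U : Submodule F W) (hU : finrank F U = 2) :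
    ∃ g : QE a →ₗ[F] W, Function.Injective g ∧ LinearMap.range g = U := by
  haveI : Module.Finite F U := Module.finite_of_finrank_pos (by omega)
  let e : QE a ≃ₗ[F] U := LinearEquiv.ofFinrankEq _ _ (finrank_QE.trans hU.symm)
  refine ⟨U.subtype ∘ₗ e.toLinearMap, U.subtype_injective.comp e.injective, ?_⟩
  rw [LinearMap.range_comp, LinearEquiv.range, Submodule.map_top, Submodule.range_subtype]

variable [Fact (∀ r : F, r ^ 2 ≠ a + 1 * r)]

theorem G_inj {g : QE a →ₗ[F] W} (hg : Function.Injective g) {u v u' v' : QE a}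
    (h : G g u v = G g u' v') : u = u' ∧ v = v' := by
  apply lin_unique
  intro x
  have : (u * x + v * star x, g x) ∈ G g u' v' := h ▸ mem_G.mpr ⟨x, rfl⟩
  obtain ⟨y, hy⟩ := mem_G.mp this
  have h2 : x = y := hg (congrArg Prod.snd hy)
  subst h2
  exact congrArg Prod.fst hy

theorem exists_G {g : QE a →ₗ[F] W} (hg : Function.Injective g) {X : Submodule F (QE a × W)}
    (hX : finrank F X = 2) (hm : LinearMap.range g ≤ X.map (LinearMap.snd F (QE a) W)) :
    ∃ u v, X = G g u v := by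
  obtain ⟨z1, hz1, e1⟩ := hm (LinearMap.mem_range_self g 1)
  obtain ⟨z2, hz2, e2⟩ := hm (LinearMap.mem_range_self g ⟨0, 1⟩)
  let f : QE a →ₗ[F] QE a :=
    (QuadraticAlgebra.reₗ a 1).smulRight z1.1 + (QuadraticAlgebra.imₗ a 1).smulRight z2.1
  obtain ⟨u, v, huv⟩ := exists_lin f
  refine ⟨u, v, (eq_of_le_two ?_ (finrank_G hg u v) hX).symm⟩
  intro z hz
  obtain ⟨x, rfl⟩ := mem_G.mp hz
  have hx : x = x.re • (1 : QE a) + x.im • (⟨0, 1⟩ : QE a) := by ext <;> simp
  have : (u * x + v * star x, g x) = x.re • z1 + x.im • z2 := by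
    refine Prod.ext ?_ ?_
    · simp only [← huv x]; rfl
    · simp only [LinearMap.snd_apply] at e1 e2
      simp only [Prod.snd_add, Prod.smul_snd, e1, e2]
      rw [← map_smul, ← map_smul, ← map_add, ← hx]
  rw [this]
  exact X.add_mem (X.smul_mem _ hz1) (X.smul_mem _ hz2)

/-- Lifting a `q ^ 2`-fold cover by lines of `W` to a partition of the lines above it. -/
theorem lift {C : Type} (T : C → Set (Submodule F W))
    (hT : ∀ c U, U ∈ T c → finrank F U = 2)
    (hcard : ∀ c U, U ∈ T c → Nonempty ({c' // U ∈ T c'} ≃ QE a)) :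
    ∃ H : C → Set (Submodule F (QE a × W)),
      (∀ c X, X ∈ H c → finrank F X = 2 ∧ X.map (LinearMap.snd F (QE a) W) ∈ T c ∧
        ∀ z ∈ X, z.2 = 0 → z = 0) ∧
      (∀ c U, U ∈ T c → ∀ z : QE a × W, z.2 ∈ U → z.2 ≠ 0 →
        ∃! X, X ∈ H c ∧ X.map (LinearMap.snd F (QE a) W) = U ∧ z ∈ X) ∧
      (∀ X : Submodule F (QE a × W), finrank F X = 2 →
        (∃ c, X.map (LinearMap.snd F (QE a) W) ∈ T c) → ∃! c, X ∈ H c) := by
  have h1 : ∀ U : {U : Submodule F W // ∃ c, U ∈ T c},
      ∃ g : QE a →ₗ[F] W, Function.Injective g ∧ LinearMap.range g = U.1 := by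
    rintro ⟨U, c, hc⟩
    exact exists_param U (hT c U hc)
  choose g hg hr using h1
  have h2 : ∀ U : {U : Submodule F W // ∃ c, U ∈ T c}, Nonempty ({c' // U.1 ∈ T c'} ≃ QE a) := by
    rintro ⟨U, c, hc⟩
    exact hcard c U hc
  let k : ∀ U : {U : Submodule F W // ∃ c, U ∈ T c}, {c' // U.1 ∈ T c'} ≃ QE a :=
    fun U => (h2 U).some
  refine ⟨fun c => {X | ∃ (U : Submodule F W) (hU : U ∈ T c) (u : QE a),
    X = G (g ⟨U, c, hU⟩) u (k ⟨U, c, hU⟩ ⟨c, hU⟩)}, ?_, ?_, ?_⟩
  · rintro c X ⟨U, hU, u, rfl⟩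
    refine ⟨finrank_G (hg _) _ _, by rw [map_snd_G, hr]; exact hU, ?_⟩
    intro z hz h0
    obtain ⟨x, rfl⟩ := mem_G.mp hz
    have : x = 0 := hg _ (by simpa using h0)
    subst this
    simp
  · intro c U hU z hz h0
    have hz' : z.2 ∈ LinearMap.range (g ⟨U, c, hU⟩) := by rw [hr]; exact hz
    obtain ⟨x, hx⟩ := hz'
    have hx0 : x ≠ 0 := by rintro rfl; exact h0 (by simpa using hx.symm)
    set d := k ⟨U, c, hU⟩ ⟨c, hU⟩ with hd
    refine ⟨G (g ⟨U, c, hU⟩) ((z.1 - d * star x) / x) d, ⟨⟨U, hU, _, rfl⟩,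
      by rw [map_snd_G, hr], mem_G.mpr ⟨x, Prod.ext ?_ hx.symm⟩⟩, ?_⟩
    · simp only; field_simp; ring
    · rintro X ⟨⟨U', hU', u, rfl⟩, hm, hzX⟩
      rw [map_snd_G, hr] at hm
      simp only at hm
      subst hm
      obtain ⟨y, hy⟩ := mem_G.mp hzX
      have hxy : x = y := hg _ (hx.trans (congrArg Prod.snd hy))
      subst hxy
      have : u = (z.1 - d * star x) / x := by
        rw [hy]; simp only; rw [← hd]; field_simp; ring
      rw [← this]
  · rintro X hX ⟨c, hc⟩
    set U := X.map (LinearMap.snd F (QE a) W) with hUdef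
    obtain ⟨u, v, huv⟩ := exists_G (hg ⟨U, c, hc⟩) hX (by rw [hr])
    let c0 := (k ⟨U, c, hc⟩).symm v
    refine ⟨c0.1, ⟨U, c0.2, u, ?_⟩, ?_⟩
    · rw [huv]
      congr 1
      exact ((k ⟨U, c, hc⟩).apply_symm_apply v).symm
    · rintro c' ⟨U', hU', u', h'⟩
      have hUU : U' = U := by rw [hUdef, h', map_snd_G, hr]
      subst hUU
      have h3 := (G_inj (hg _) (huv.symm.trans h')).2
      have : (⟨c', hU'⟩ : {c' // (X.map (LinearMap.snd F (QE a) W)) ∈ T c'}) = c0 := by
        simp only [c0]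
        rw [Equiv.eq_symm_apply]
        exact h3.symm
      exact congrArg Subtype.val this

end Pool.Agent.P.MP_3b9ee7_co
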