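import Pool.Agent.P.MP_3b9ee7_co.Global

set_option autoImplicit false
set_option linter.unusedSectionVars false

/-! Assembly of the line parallelism. -/

namespace Pool.Agent.P.MP_3b9ee7_co

open QuadraticAlgebra Module
open scoped LinearAlgebra.Projectivization

variable {F : Type} [Field F] {a : F} [Fact (∀ r : F, r ^ 2 ≠ a + 1 * r)]
variable {W : Type} [AddCommGroup W] [Module F W] [Module (QE a) W] [IsScalarTower F (QE a) W]

/-- The embedding of the three-dimensional space attached to a point. -/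
def io (a : F) [Fact (∀ r : F, r ^ 2 ≠ a + 1 * r)] [Module (QE a) W] [IsScalarTower F (QE a) W]
    (m : W) : (QE a × QE a) →ₗ[F] (QE a × W) where
  toFun z := (z.1, z.2 • m)
  map_add' z w := by simp [add_smul]
  map_smul' c z := by simp

theorem io_apply (m : W) (z : QE a × QE a) : io a m z = (z.1, z.2 • m) := rfl

theorem io_inj {m : W} (hm : m ≠ 0) : Function.Injective (io a m) := by
  intro z w h
  simp only [io_apply, Prod.mk.injEq] at h
  exact Prod.ext h.1 (smul_left_injective _ hm h.2)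

theorem finrank_io {m : W} (hm : m ≠ 0) (Y : Submodule F (QE a × QE a)) :
    finrank F (Y.map (io a m)) = finrank F Y :=
  finrank_map_of_inj _ _ (fun _ _ h => io_inj hm (h.trans (map_zero _).symm))

theorem mem_io {m : W} (hm : m ≠ 0) {Y : Submodule F (QE a × QE a)} {z : QE a × QE a} :
    io a m z ∈ Y.map (io a m) ↔ z ∈ Y := by
  constructor
  · rintro ⟨w, hw, e⟩; exact io_inj hm e ▸ hw
  · intro h; exact ⟨z, h, rfl⟩

theorem map_MM (m : W) : (MM a (QE a)).map (io a m) = MM a W := by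
  ext z
  simp only [Submodule.mem_map, mem_MM]
  constructor
  · rintro ⟨w, hw, rfl⟩; simp [io_apply, hw]
  · intro h; exact ⟨(z.1, 0), rfl, Prod.ext rfl (by simp [io_apply, h])⟩

theorem rep_eq {i i' : ℙ (QE a) W} {x x' : QE a} (h : x • i.rep = x' • i'.rep)
    (h0 : x • i.rep ≠ 0) : i = i' := by
  have hx : x ≠ 0 := by rintro rfl; exact h0 (zero_smul _ _)
  rw [← i.mk_rep, ← i'.mk_rep, Projectivization.mk_eq_mk_iff']
  exact ⟨x⁻¹ * x', by rw [mul_smul, ← h, ← mul_smul, inv_mul_cancel₀ hx, one_smul]⟩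

theorem exists_pt {w : W} (hw : w ≠ 0) : ∃ (i : ℙ (QE a) W) (x : QE a), w = x • i.rep := by
  obtain ⟨k, hk⟩ := Projectivization.exists_smul_eq_mk_rep (QE a) _ hw
  exact ⟨_, (k⁻¹ : (QE a)ˣ), by rw [← hk, Units.smul_def, ← mul_smul]; simp⟩

theorem exists_par [Fintype F] :
    ∃ S : Option (ℙ (QE a) W × (Option F × F)) → Set (Submodule F (QE a × W)), IsPar S := by
  obtain ⟨B, hB, hM⟩ := exists_base (a := a)
  obtain ⟨T, hT1, hT2, hT3⟩ := exists_cover (a := a) (W := W)
  obtain ⟨H, hH1, hH2, hH3⟩ := lift (a := a) T (fun c U h => (hT1 c U h).1)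
    (fun c U h => hT3 U (hT1 c U h).1 (hT1 c U h).2.1)
  have hH0 : ∀ c X, X ∈ H c → ∀ z ∈ X, (∃ x : QE a, z.2 = x • c.1.rep) → z = 0 := by
    intro c X hX z hz h
    obtain ⟨-, h2, h3⟩ := hH1 c X hX
    exact h3 z hz ((hT1 c _ h2).2.2 z.2 ⟨z, hz, rfl⟩ h)
  have hHio : ∀ c X, X ∈ H c → ∀ (m : W) (Y : Submodule F (QE a × QE a)),
      X ≠ Y.map (io a m) := by
    rintro c X hX m Y rfl
    refine (hT1 c _ (hH1 c _ hX).2.1).2.1 ⟨m, ?_⟩
    rintro w ⟨z, ⟨y, -, rfl⟩, rfl⟩
    exact ⟨y.2, rfl⟩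
  have hMj : ∀ j, MM a (QE a) ∉ B (some j) := by
    intro j hj
    have := (hB.part _ finrank_MM).unique hM hj
    cases this
  let S : Option (ℙ (QE a) W × (Option F × F)) → Set (Submodule F (QE a × W)) := fun c =>
    match c with
    | none => {X | X = MM a W ∨ ∃ (i : ℙ (QE a) W), ∃ Y ∈ B none, X = Y.map (io a i.rep)}
    | some c => {X | (∃ Y ∈ B (some c.2), X = Y.map (io a c.1.rep)) ∨ X ∈ H c}
  refine ⟨S, ?_, ?_, ?_⟩
  · rintro (_ | c) X hX
    · rcases hX with rfl | ⟨i, Y, hY, rfl⟩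
      · exact finrank_MM
      · rw [finrank_io i.rep_nonzero]; exact hB.dim _ _ hY
    · rcases hX with ⟨Y, hY, rfl⟩ | hX
      · rw [finrank_io c.1.rep_nonzero]; exact hB.dim _ _ hY
      · exact (hH1 c X hX).1
  · rintro (_ | c) ⟨y, w⟩ hz
    · by_cases hw : w = 0
      · subst hw
        have hy : ((y, 0) : QE a × QE a) ≠ 0 := by
          intro h; apply hz; rw [Prod.mk.injEq] at h; rw [h.1]; rfl
        refine ⟨MM a W, ⟨Or.inl rfl, mem_MM.mpr rfl⟩, ?_⟩
        rintro X ⟨rfl | ⟨i, Y, hY, rfl⟩, hX⟩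
        · rfl
        · have h1 : ((y, 0) : QE a × QE a) ∈ Y := by
            rw [← mem_io i.rep_nonzero, io_apply]; simpa using hX
          rw [(hB.cover none _ hy).unique ⟨hY, h1⟩ ⟨hM, mem_MM.mpr rfl⟩, map_MM]
      · obtain ⟨i, x, rfl⟩ := exists_pt (a := a) hw
        have hx : x ≠ 0 := by rintro rfl; exact hw (zero_smul _ _)
        have hy : ((y, x) : QE a × QE a) ≠ 0 := fun h => hx (congrArg Prod.snd h)
        obtain ⟨Y, ⟨hY, hY2⟩, hYu⟩ := hB.cover none _ hy
        refine ⟨Y.map (io a i.rep), ⟨Or.inr ⟨i, Y, hY, rfl⟩, ⟨_, hY2, rfl⟩⟩, ?_⟩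
        rintro X ⟨rfl | ⟨i', Y', hY', rfl⟩, hX⟩
        · exact absurd (mem_MM.mp hX) hw
        · obtain ⟨z, hz1, hz2⟩ := id hX
          have hi : i = i' := rep_eq (congrArg Prod.snd hz2).symm hw
          subst hi
          rw [hYu Y' ⟨hY', (mem_io i.rep_nonzero).mp hX⟩]
    · by_cases hw : ∃ x : QE a, w = x • c.1.rep
      · obtain ⟨x, rfl⟩ := hw
        have hy : ((y, x) : QE a × QE a) ≠ 0 := by
          intro h; apply hz; rw [← io_apply c.1.rep (y, x), h, map_zero]
        obtain ⟨Y, ⟨hY, hY2⟩, hYu⟩ := hB.cover (some c.2) _ hy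
        refine ⟨Y.map (io a c.1.rep), ⟨Or.inl ⟨Y, hY, rfl⟩, ⟨_, hY2, rfl⟩⟩, ?_⟩
        rintro X ⟨⟨Y', hY', rfl⟩ | hX', hX⟩
        · rw [hYu Y' ⟨hY', (mem_io c.1.rep_nonzero).mp hX⟩]
        · exact absurd (hH0 c X hX' _ hX ⟨x, rfl⟩) hz
      · have hw0 : w ≠ 0 := by rintro rfl; exact hw ⟨0, (zero_smul _ _).symm⟩
        obtain ⟨U, ⟨hU, hU2⟩, hUu⟩ := hT2 c w hw
        obtain ⟨X, ⟨hX, hX2, hX3⟩, hXu⟩ := hH2 c U hU (y, w) hU2 hw0
        refine ⟨X, ⟨Or.inr hX, hX3⟩, ?_⟩
        rintro X' ⟨⟨Y', hY', rfl⟩ | hX', hX4⟩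
        · obtain ⟨z, -, hz2⟩ := hX4
          exact absurd ⟨z.2, (congrArg Prod.snd hz2).symm⟩ hw
        · exact hXu X' ⟨hX', hUu _ ⟨(hH1 c X' hX').2.1, ⟨_, hX4, rfl⟩⟩, hX4⟩
  · intro X hX
    by_cases hXM : X = MM a W
    · subst hXM
      refine ⟨none, Or.inl rfl, ?_⟩
      rintro (_ | c) hc
      · rfl
      · exfalso
        rcases hc with ⟨Y, hY, h⟩ | h
        · rw [← map_MM c.1.rep] at h
          rw [← Submodule.map_injective_of_injective (io_inj c.1.rep_nonzero) h] at hY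
          exact hMj _ hY
        · exact hHio c _ h 0 _ (map_MM 0).symm
    · have hex : ∃ z ∈ X, z.2 ≠ 0 := by
        by_contra h
        push Not at h
        exact hXM (eq_of_le_two (fun z hz => mem_MM.mpr (h z hz)) hX finrank_MM)
      obtain ⟨z0, hz0, hz1⟩ := hex
      by_cases hpt : InPt a (X.map (LinearMap.snd F (QE a) W))
      · obtain ⟨m, hm⟩ := hpt
        obtain ⟨x0, hx0⟩ := hm _ ⟨z0, hz0, rfl⟩
        simp only [LinearMap.snd_apply] at hx0
        have hm0 : m ≠ 0 := by rintro rfl; exact hz1 (by simpa using hx0)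
        obtain ⟨i, k, rfl⟩ := exists_pt (a := a) hm0
        have hmap : (X.comap (io a i.rep)).map (io a i.rep) = X := by
          apply Submodule.map_comap_eq_self
          intro z hz
          obtain ⟨x, hx⟩ := hm _ ⟨z, hz, rfl⟩
          exact ⟨(z.1, x * k), Prod.ext rfl (by rw [io_apply, mul_smul]; exact hx.symm)⟩
        set Y := X.comap (io a i.rep)
        have hY : finrank F Y = 2 := by rw [← finrank_io i.rep_nonzero, hmap, hX]
        have key : ∀ (i' : ℙ (QE a) W) (Y' : Submodule F (QE a × QE a)),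
            X = Y'.map (io a i'.rep) → i' = i ∧ Y' = Y := by
          intro i' Y' h
          obtain ⟨z, -, hz2⟩ : z0 ∈ Y'.map (io a i'.rep) := h ▸ hz0
          have e1 : z.2 • i'.rep = z0.2 := congrArg Prod.snd hz2
          have hi : i' = i := rep_eq (x := z.2) (x' := x0 * k)
            (by rw [e1, mul_smul]; exact hx0) (by rw [e1]; exact hz1)
          subst hi
          exact ⟨rfl, Submodule.map_injective_of_injective (io_inj i'.rep_nonzero)
            (h.symm.trans hmap.symm)⟩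
        obtain ⟨c, hc, hcu⟩ := hB.part Y hY
        refine ⟨c.map (fun j => (i, j)), ?_, ?_⟩
        · cases c with
          | none => exact Or.inr ⟨i, Y, hc, hmap.symm⟩
          | some j => exact Or.inl ⟨Y, hc, hmap.symm⟩
        · rintro (_ | c') hc'
          · rcases hc' with h | ⟨i', Y', hY', h⟩
            · exact absurd h hXM
            · obtain ⟨-, rfl⟩ := key i' Y' h
              rw [← hcu none hY']; rfl
          · rcases hc' with ⟨Y', hY', h⟩ | h
            · obtain ⟨h1, rfl⟩ := key _ Y' h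
              rw [← hcu _ hY', ← h1]; rfl
            · exact absurd hmap.symm (hHio c' X h _ _)
      · have hU : finrank F (X.map (LinearMap.snd F (QE a) W)) = 2 := by
          haveI : Module.Finite F X := Module.finite_of_finrank_pos (by omega)
          have h1 := Submodule.finrank_map_le (LinearMap.snd F (QE a) W) X
          by_contra hne
          obtain ⟨v, hv⟩ := finrank_le_one_iff.mp
            (show finrank F (X.map (LinearMap.snd F (QE a) W)) ≤ 1 by omega)
          refine hpt ⟨v, fun w hw => ?_⟩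
          obtain ⟨c, hc⟩ := hv ⟨w, hw⟩
          exact ⟨algebraMap F (QE a) c, by
            rw [algebraMap_smul]; exact (congrArg Subtype.val hc).symm⟩
        obtain ⟨e⟩ := hT3 _ hU hpt
        obtain ⟨c, hc, hcu⟩ := hH3 X hX ⟨(e.symm 0).1, (e.symm 0).2⟩
        have nio : ∀ (m : W) (Y : Submodule F (QE a × QE a)), X ≠ Y.map (io a m) :=
          hHio c X hc
        refine ⟨some c, Or.inr hc, ?_⟩
        rintro (_ | c') hc'
        · rcases hc' with h | ⟨i', Y', -, h⟩
          · exact absurd h hXM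
          · exact absurd h (nio _ _)
        · rcases hc' with ⟨Y', -, h⟩ | h
          · exact absurd h (nio _ _)
          · rw [hcu c' h]

theorem IsPar.transport {V V' C : Type} [AddCommGroup V] [Module F V] [AddCommGroup V']
    [Module F V'] {S : C → Set (Submodule F V)} (h : IsPar S) (e : V' ≃ₗ[F] V) :
    IsPar (fun c => {X : Submodule F V' | X.map e.toLinearMap ∈ S c}) := by
  refine ⟨fun c X hX => ?_, fun c v hv => ?_, fun X hX => ?_⟩
  · rw [← LinearEquiv.finrank_map_eq e X]; exact h.dim c _ hX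
  · obtain ⟨Y, ⟨hY, hY2⟩, hu⟩ := h.cover c (e v) (by simpa using hv)
    have hm : (Y.comap e.toLinearMap).map e.toLinearMap = Y :=
      Submodule.map_comap_eq_of_surjective e.surjective Y
    refine ⟨Y.comap e.toLinearMap, ⟨by simpa only [Set.mem_setOf_eq, hm] using hY, hY2⟩, ?_⟩
    rintro X ⟨hX, hX2⟩
    rw [← hu _ ⟨hX, ⟨v, hX2, rfl⟩⟩, Submodule.comap_map_eq_of_injective e.injective]
  · exact h.part _ (by rw [LinearEquiv.finrank_map_eq e X]; exact hX)

theorem exists_par_even (K : Type) [Field K] [Fintype K] (V : Type) [AddCommGroup V] [Module K V]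
    [Module.Finite K V] (m : ℕ) (hV : finrank K V = 2 * (m + 1)) :
    ∃ (C : Type) (S : C → Set (Submodule K V)), IsPar S := by
  obtain ⟨a, ha⟩ := exists_irred (F := K)
  haveI : Fact (∀ r : K, r ^ 2 ≠ a + 1 * r) := ⟨ha⟩
  obtain ⟨S, hS⟩ := exists_par (a := a) (W := Fin m → QE a)
  have e : V ≃ₗ[K] (QE a × (Fin m → QE a)) := LinearEquiv.ofFinrankEq _ _ (by
    rw [hV, Module.finrank_prod, Module.finrank_pi_fintype, finrank_QE]
    simp; ring)
  exact ⟨_, _, hS.transport e⟩

end Pool.Agent.P.MP_3b9ee7_co
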